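import Pool.Agent.Kol.Exp

/-!
# No long periodic factors of a given period
-/

namespace Pool.Agent.KolW

namespace Kol

variable {k s : ℕ → ℕ} (K : Kol k s)
include K

lemma change_start {p : ℕ} (h : k p ≠ k (p + 1)) : ∃ i, p + 1 = s i := by
  obtain ⟨i, t, ht, hp⟩ := K.exists_run p
  refine ⟨i + 1, ?_⟩
  by_contra hc
  have h1 := K.succ i
  apply h
  rw [K.run i p (by omega) (by omega), K.run i (p + 1) (by omega) (by omega)]

lemma k_one_iff (i : ℕ) : k i = 1 ↔ k (s i + 1) ≠ k (s i) := by
  have h1 := K.succ i
  have h2 := K.s_lt (i + 1)
  rw [K.k_s]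
  constructor
  · intro h
    rw [K.run (i + 1) (s i + 1) (by omega) (by omega)]
    exact c_succ_ne i
  · intro h
    rcases K.mem i with a | a
    · exact a
    · exact absurd (K.run i (s i + 1) (by omega) (by omega)) h

/-- the long factors of `k` with period `q` are bounded -/
theorem aperiodic (q : ℕ) : 1 ≤ q → ∃ n, ∀ j, ∃ t < n, k (j + t + q) ≠ k (j + t) := by
  induction q using Nat.strong_induction_on with
  | _ q ih =>
    intro hq
    by_contra hc
    push Not at hc
    -- the bound for the smaller periods
    have hb : ∃ B, ∀ r, 1 ≤ r → r < q → ∀ j, ∃ t < B, k (j + t + r) ≠ k (j + t) := by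
      choose! f hf using ih
      refine ⟨(Finset.range q).sup f, fun r h1 h2 j => ?_⟩
      obtain ⟨t, ht, ht'⟩ := hf r h2 h1 j
      exact ⟨t, lt_of_lt_of_le ht (Finset.le_sup (Finset.mem_range.2 h2)), ht'⟩
    obtain ⟨B, hB⟩ := hb
    obtain ⟨j, hj⟩ := hc (2 * B + 12)
    obtain ⟨i0, t0, ht0, hjp⟩ := K.exists_run j
    have a1 := K.le_two i0
    have a2 := K.succ i0
    set i := i0 + 1 with hi
    -- the run start `s i` in the window
    have hx1 : j + 1 ≤ s i := by omega
    have hx2 : s i ≤ j + 2 := by omega
    have hsi : s i = s (i0 + 1) := rfl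
    have hne : k (s i - 1) ≠ k (s i) := by
      rw [K.run i0 (s i - 1) (by omega) (by omega), K.k_s, hi]
      exact (c_succ_ne i0).symm
    have b1 := hj (s i - 1 - j) (by omega)
    have b2 := hj (s i - j) (by omega)
    rw [show j + (s i - 1 - j) + q = s i - 1 + q by omega,
      show j + (s i - 1 - j) = s i - 1 by omega] at b1
    rw [show j + (s i - j) + q = s i + q by omega, show j + (s i - j) = s i by omega] at b2
    obtain ⟨i', hi'⟩ := K.change_start (p := s i - 1 + q) (by
      rw [show s i - 1 + q + 1 = s i + q by omega, b1, b2]; exact hne)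
    have hi'' : s i + q = s i' := by omega
    have hlt : i < i' := K.strictMono.lt_iff_lt.1 (by omega)
    have hpar : i % 2 = i' % 2 := by
      apply c_inj
      rw [← K.k_s i, ← K.k_s i', ← hi'', b2]
    -- the corresponding run starts
    have hrun : ∀ t ≤ B + 3, s (i + t) + q = s (i' + t) := by
      intro t
      induction t with
      | zero => intro _; exact hi''
      | succ t iht =>
        intro ht
        have c0 := iht (by omega)
        have c1 := K.add_ge i t
        have c2 := K.strictMono.monotone (show i ≤ i + t by omega)
        have c3 := hj (s (i + t) - j) (by omega)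
        have c4 := hj (s (i + t) + 1 - j) (by omega)
        rw [show j + (s (i + t) - j) + q = s (i' + t) by omega,
          show j + (s (i + t) - j) = s (i + t) by omega] at c3
        rw [show j + (s (i + t) + 1 - j) + q = s (i' + t) + 1 by omega,
          show j + (s (i + t) + 1 - j) = s (i + t) + 1 by omega] at c4
        have c5 : k (i + t) = k (i' + t) := by
          have d1 := K.k_one_iff (i + t)
          have d2 := K.k_one_iff (i' + t)
          rw [c3, c4] at d2
          rcases K.mem (i + t) with a | a <;> rcases K.mem (i' + t) with b | b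
          · rw [a, b]
          · exfalso; have := d2.2 (d1.1 a); omega
          · exfalso; have := d1.2 (d2.1 b); omega
          · rw [a, b]
        have c6 : s (i + (t + 1)) = s (i + t) + k (i + t) := K.succ (i + t)
        have c7 : s (i' + (t + 1)) = s (i' + t) + k (i' + t) := K.succ (i' + t)
        omega
    obtain ⟨r, rfl⟩ : ∃ r, i' = i + r := ⟨i' - i, by omega⟩
    have hper : ∀ t < B + 3, k (i + t + r) = k (i + t) := by
      intro t ht
      have c1 := hrun t (by omega)
      have c2 := hrun (t + 1) (by omega)
      have c3 : s (i + (t + 1)) = s (i + t) + k (i + t) := K.succ (i + t)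
      have c4 : s (i + r + (t + 1)) = s (i + r + t) + k (i + r + t) := K.succ (i + r + t)
      rw [show i + t + r = i + r + t by ring]
      omega
    have hrq : r < q := by
      have d1 := K.add_le i r
      rcases Nat.lt_or_ge r q with h | h
      · exact h
      exfalso
      have hr : r = q := by omega
      rcases Nat.lt_or_ge r 3 with h3 | h3
      · have hr2 : r = 2 := by omega
        have d2 := hrun 1 (by omega)
        have d3 := K.lower_three i 3 le_rfl
        have d4 := K.s_lt i
        have d5 := K.s_lt (i + 1)
        subst hr2
        rw [show i + 2 + 1 = i + 3 by ring] at d2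
        rw [show i + 1 + 1 = i + 2 by ring] at d5
        omega
      · have d2 := K.lower_three i r h3
        omega
    obtain ⟨t, ht, ht'⟩ := hB r (by omega) hrq i
    exact ht' (hper t (by omega))

end Kol

end Pool.Agent.KolW
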