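import Mathlib

/-!
# The Kolakoski word: basic facts
-/

namespace Pool.Agent.KolW

/-- the letter of the run of index `i` (runs are numbered from `0`) -/
def c (i : ℕ) : ℕ := if i % 2 = 0 then 2 else 1

/-- `k` is the Kolakoski word, `s i` is the position where run number `i` starts -/
structure Kol (k s : ℕ → ℕ) : Prop where
  mem : ∀ n, k n = 1 ∨ k n = 2
  s0 : s 0 = 0
  succ : ∀ i, s (i + 1) = s i + k i
  run : ∀ i j, s i ≤ j → j < s (i + 1) → k j = c i

/-- the window of length `n` at position `i` -/
def win (k : ℕ → ℕ) : ℕ → ℕ → List ℕ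
  | _, 0 => []
  | i, n + 1 => k i :: win k (i + 1) n

/-- the word whose runs have the lengths given by the list, first letter `c e` -/
def integ : ℕ → List ℕ → List ℕ
  | _, [] => []
  | e, a :: v => List.replicate a (c e) ++ integ (e + 1) v

lemma c_eq {i j : ℕ} (h : i % 2 = j % 2) : c i = c j := by unfold c; rw [h]

lemma c_mem (i : ℕ) : c i = 1 ∨ c i = 2 := by unfold c; split <;> simp

lemma c_inj {i j : ℕ} (h : c i = c j) : i % 2 = j % 2 := by
  unfold c at h
  split at h <;> split at h <;> omega

lemma c_succ (i : ℕ) : c (i + 1) = 3 - c i := by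
  unfold c
  split <;> split <;> omega

lemma c_succ_ne (i : ℕ) : c (i + 1) ≠ c i := by
  rw [c_succ]; rcases c_mem i with h | h <;> rw [h] <;> decide

lemma win_length (k : ℕ → ℕ) (i n : ℕ) : (win k i n).length = n := by
  induction n generalizing i with
  | zero => rfl
  | succ n ih => simp [win, ih]

lemma win_add (k : ℕ → ℕ) (i m n : ℕ) : win k i (m + n) = win k i m ++ win k (i + m) n := by
  induction m generalizing i with
  | zero => simp [win]
  | succ m ih =>
    rw [show m + 1 + n = (m + n) + 1 by ring]
    simp only [win, List.cons_append, ih]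
    rw [show i + 1 + m = i + (m + 1) by ring]

lemma win_eq_iff (k : ℕ → ℕ) (i j n : ℕ) :
    win k i n = win k j n ↔ ∀ t < n, k (i + t) = k (j + t) := by
  induction n generalizing i j with
  | zero => simp [win]
  | succ n ih =>
    simp only [win, List.cons.injEq, ih]
    constructor
    · rintro ⟨h0, h1⟩ t ht
      rcases t with _ | t
      · simpa using h0
      · have := h1 t (by omega)
        rw [show i + (t + 1) = i + 1 + t by ring, show j + (t + 1) = j + 1 + t by ring]
        exact this
    · intro h
      refine ⟨by simpa using h 0 (by omega), fun t ht => ?_⟩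
      have := h (t + 1) (by omega)
      rw [show i + (t + 1) = i + 1 + t by ring, show j + (t + 1) = j + 1 + t by ring] at this
      exact this

lemma win_const (k : ℕ → ℕ) (i n a : ℕ) (h : ∀ t < n, k (i + t) = a) :
    win k i n = List.replicate n a := by
  induction n generalizing i with
  | zero => rfl
  | succ n ih =>
    simp only [win, List.replicate_succ]
    rw [ih (i + 1) (fun t ht => by rw [show i + 1 + t = i + (t + 1) by ring]; exact h _ (by omega))]
    have := h 0 (by omega)
    simp only [add_zero] at this
    rw [this]

lemma integ_parity {e f : ℕ} (h : e % 2 = f % 2) (v : List ℕ) : integ e v = integ f v := by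
  induction v generalizing e f with
  | nil => rfl
  | cons a v ih =>
    simp only [integ]
    rw [c_eq h, ih (e := e + 1) (f := f + 1) (by omega)]

lemma integ_append (e : ℕ) (u v : List ℕ) :
    integ e (u ++ v) = integ e u ++ integ (e + u.length) v := by
  induction u generalizing e with
  | nil => simp [integ]
  | cons a u ih =>
    simp only [List.cons_append, integ, ih, List.append_assoc, List.length_cons]
    rw [show e + 1 + u.length = e + (u.length + 1) by ring]

namespace Kol

variable {k s : ℕ → ℕ} (K : Kol k s)
include K

lemma one_le (n : ℕ) : 1 ≤ k n := by rcases K.mem n with h | h <;> omega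

lemma le_two (n : ℕ) : k n ≤ 2 := by rcases K.mem n with h | h <;> omega

lemma s_lt (i : ℕ) : s i < s (i + 1) := by have := K.succ i; have := K.one_le i; omega

lemma strictMono : StrictMono s := strictMono_nat_of_lt_succ K.s_lt

lemma le_s (i : ℕ) : i ≤ s i := K.strictMono.le_apply

lemma add_le (i n : ℕ) : s i + n ≤ s (i + n) := by
  induction n with
  | zero => simp
  | succ n ih => have := K.s_lt (i + n); rw [show i + (n + 1) = i + n + 1 by ring]; omega

lemma add_ge (i n : ℕ) : s (i + n) ≤ s i + 2 * n := by
  induction n with
  | zero => simp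
  | succ n ih =>
    have h1 := K.succ (i + n); have h2 := K.le_two (i + n)
    rw [show i + (n + 1) = i + n + 1 by ring]; omega

/-- every position lies in a run -/
lemma exists_run (p : ℕ) : ∃ i t, t < k i ∧ p = s i + t := by
  induction p with
  | zero => exact ⟨0, 0, K.one_le 0, by rw [K.s0]⟩
  | succ p ih =>
    obtain ⟨i, t, ht, hp⟩ := ih
    by_cases h : t + 1 < k i
    · exact ⟨i, t + 1, h, by omega⟩
    · refine ⟨i + 1, 0, K.one_le _, ?_⟩
      have := K.succ i
      omega

lemma k_run (i t : ℕ) (ht : t < k i) : k (s i + t) = c i :=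
  K.run i _ (by omega) (by rw [K.succ]; omega)

lemma k_s (i : ℕ) : k (s i) = c i := by simpa using K.k_run i 0 (K.one_le i)

lemma integ_win (i n : ℕ) : integ i (win k i n) = win k (s i) (s (i + n) - s i) := by
  induction n generalizing i with
  | zero => simp [win, integ]
  | succ n ih =>
    simp only [win, integ]
    rw [ih (i + 1)]
    have h1 : s (i + (n + 1)) - s i = k i + (s (i + 1 + n) - s (i + 1)) := by
      have := K.succ i
      have h2 := K.strictMono.monotone (show i + 1 ≤ i + 1 + n by omega)
      rw [show i + (n + 1) = i + 1 + n by ring]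
      omega
    rw [h1, win_add, win_const k (s i) (k i) (c i) (fun t ht => K.k_run i t ht), K.succ i]

lemma integ_win' {e : ℕ} (i n : ℕ) (h : e % 2 = i % 2) :
    integ e (win k i n) = win k (s i) (s (i + n) - s i) := by
  rw [integ_parity h, K.integ_win]

lemma sum_win (i n : ℕ) : s (i + n) = s i + (win k i n).sum := by
  induction n generalizing i with
  | zero => simp [win]
  | succ n ih =>
    simp only [win, List.sum_cons]
    rw [show i + (n + 1) = i + 1 + n by ring, ih (i + 1), K.succ]
    ring

lemma k0 : k 0 = 2 := by
  have := K.k_s 0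
  rw [K.s0] at this
  simpa [c] using this

lemma succ_le_s {i : ℕ} (hi : 1 ≤ i) : i + 1 ≤ s i := by
  obtain ⟨j, rfl⟩ : ∃ j, i = 1 + j := ⟨i - 1, by omega⟩
  have h1 : s 1 = 2 := by have := K.succ 0; rw [K.s0, K.k0] at this; simpa using this
  have := K.add_le 1 j
  omega

end Kol

end Pool.Agent.KolW
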