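import Pool.Agent.Kol.Smooth

/-!
# If every smooth word occurs then every factor occurs at both parities
-/

namespace Pool.Agent.KolW

lemma length_integ (e : ℕ) (v : List ℕ) : (integ e v).length = v.sum := by
  induction v generalizing e with
  | nil => rfl
  | cons a v ih => simp [integ, ih]

lemma integ_two (e : ℕ) (v : List ℕ) : integ (e + 2) v = integ e v := integ_parity (by omega) v

/-- the run lengths of an integral -/
lemma rle_replicate (a : ℕ) (x : ℕ) (w : List ℕ) (hw : w.head? ≠ some x) :
    rle (List.replicate (a + 1) x ++ w) = (a + 1) :: rle w := by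
  induction a with
  | zero =>
    cases w with
    | nil => rfl
    | cons b w =>
      simp only [List.head?_cons, ne_eq, Option.some.injEq] at hw
      simp only [zero_add, List.replicate_one, List.singleton_append, rle]
      rw [if_neg (fun h => hw h.symm)]
  | succ a ih =>
    have : List.replicate (a + 1 + 1) x ++ w = x :: x :: (List.replicate a x ++ w) := by
      simp [List.replicate_succ]
    rw [this]
    simp only [rle, if_true]
    have h2 : x :: (List.replicate a x ++ w) = List.replicate (a + 1) x ++ w := by
      simp [List.replicate_succ]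
    rw [h2, ih]
    rfl

lemma head_integ (e : ℕ) (v : List ℕ) (hv : ∀ a ∈ v, 1 ≤ a) :
    (integ e v).head? ≠ some (c (e + 1)) := by
  cases v with
  | nil => simp [integ]
  | cons a v =>
    obtain ⟨b, rfl⟩ : ∃ b, a = b + 1 := ⟨a - 1, by have := hv a (by simp); omega⟩
    simp only [integ, List.replicate_succ, List.cons_append, List.head?_cons, ne_eq,
      Option.some.injEq]
    exact fun h => c_succ_ne e h.symm

lemma rle_integ (e : ℕ) (v : List ℕ) (hv : ∀ a ∈ v, 1 ≤ a) : rle (integ e v) = v := by
  induction v generalizing e with
  | nil => rfl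
  | cons a v ih =>
    obtain ⟨b, rfl⟩ : ∃ b, a = b + 1 := ⟨a - 1, by have := hv a (by simp); omega⟩
    have hv' : ∀ a ∈ v, 1 ≤ a := fun a ha => hv a (by simp [ha])
    simp only [integ]
    rw [rle_replicate, ih _ hv']
    have := head_integ (e + 1) v hv'
    rwa [show c (e + 1 + 1) = c e from c_eq (by omega)] at this

lemma win_mem {k s : ℕ → ℕ} (K : Kol k s) (i n : ℕ) : ∀ a ∈ win k i n, a = 1 ∨ a = 2 := by
  induction n generalizing i with
  | zero => simp [win]
  | succ n ih =>
    intro a ha
    simp only [win, List.mem_cons] at ha
    rcases ha with rfl | ha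
    · exact K.mem i
    · exact ih _ a ha

/-- factors -/
def IsFac (k : ℕ → ℕ) (v : List ℕ) : Prop := ∃ i n, v = win k i n

lemma win_snoc (k : ℕ → ℕ) (i n : ℕ) : win k i (n + 1) = win k i n ++ [k (i + n)] := by
  rw [win_add]; rfl

lemma IsFac.dropOne {k : ℕ → ℕ} {v : List ℕ} (h : IsFac k v) : IsFac k (dropOne v) := by
  obtain ⟨i, n, rfl⟩ := h
  cases n with
  | zero => exact ⟨0, 0, rfl⟩
  | succ n =>
    simp only [win, KolW.dropOne]
    split
    · exact ⟨i + 1, n, rfl⟩
    · exact ⟨i, n + 1, rfl⟩

lemma IsFac.dropLastOne {k : ℕ → ℕ} {v : List ℕ} (h : IsFac k v) :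
    IsFac k (KolW.dropOne v.reverse).reverse := by
  obtain ⟨i, n, rfl⟩ := h
  cases n with
  | zero => exact ⟨0, 0, rfl⟩
  | succ n =>
    rw [win_snoc]
    simp only [List.reverse_append, List.reverse_cons, List.reverse_nil, List.nil_append,
      List.singleton_append, KolW.dropOne]
    split
    · exact ⟨i, n, by simp⟩
    · exact ⟨i, n + 1, by simp [win_snoc]⟩

namespace Kol

variable {k s : ℕ → ℕ} (K : Kol k s)
include K

/-- the derivative of a factor is a factor -/
lemma der_fac (i n : ℕ) : IsFac k (der (win k i n)) := by
  rcases Nat.eq_zero_or_pos n with h0 | h0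
  · subst h0; exact ⟨0, 0, rfl⟩
  obtain ⟨r, t, ht, rfl⟩ := K.exists_run i
  -- the general form of the run lengths
  have main : ∀ (a r' m : ℕ) (y : List ℕ), (a = 1 ∨ a = 2 ∧ k r' = 2) →
      (y = [] ∨ ∃ b, y = [b] ∧ (b = 1 ∨ b = 2 ∧ k (r' + 1 + m) = 2)) →
      rle (win k (s r + t) n) = a :: (win k (r' + 1) m ++ y) → IsFac k (der (win k (s r + t) n)) := by
    intro a r' m y ha hy hr
    unfold der
    rw [hr]
    -- first step
    obtain ⟨q, l, hq, hql⟩ : ∃ q l, dropOne (a :: (win k (r' + 1) m ++ y)) = win k q l ++ y ∧
        q + l = r' + 1 + m := by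
      rcases ha with rfl | ⟨rfl, h2⟩
      · exact ⟨r' + 1, m, by simp [dropOne], rfl⟩
      · refine ⟨r', m + 1, ?_, by ring⟩
        simp only [dropOne, win, h2]
        simp
    rw [hq]
    rcases hy with rfl | ⟨b, rfl, hb⟩
    · rw [List.append_nil]
      exact IsFac.dropLastOne ⟨q, l, rfl⟩
    · rw [List.reverse_append]
      simp only [List.reverse_cons, List.reverse_nil, List.nil_append, List.singleton_append,
        dropOne]
      rcases hb with rfl | ⟨rfl, h2⟩
      · exact ⟨q, l, by simp⟩
      · refine ⟨q, l + 1, ?_⟩
        rw [win_snoc, hql, h2]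
        simp
  -- a single run
  by_cases h1 : n ≤ k r - t
  · have hw : win k (s r + t) n = integ r [n] := by
      simp only [integ, List.append_nil]
      refine win_const _ _ _ _ (fun x hx => ?_)
      rw [add_assoc]
      exact K.k_run _ _ (by omega)
    have hr : rle (win k (s r + t) n) = [n] := by
      rw [hw]; exact rle_integ r [n] (by simp; omega)
    refine main n r 0 [] ?_ (Or.inl rfl) (by rw [hr]; rfl)
    have := K.le_two r
    omega
  · -- several runs
    obtain ⟨q, t', ht', hq⟩ := K.exists_run (s r + t + n)
    have hrq : r + 1 ≤ q := by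
      by_contra hc
      have := K.strictMono.monotone (show q + 1 ≤ r + 1 by omega)
      have := K.succ q
      have := K.succ r
      omega
    obtain ⟨m, rfl⟩ : ∃ m, q = r + 1 + m := ⟨q - (r + 1), by omega⟩
    have hs := K.succ r
    have hmon := K.strictMono.monotone hrq
    have hw : win k (s r + t) n = List.replicate (k r - t) (c r) ++
        (win k (s (r + 1)) (s (r + 1 + m) - s (r + 1)) ++
          List.replicate t' (c (r + 1 + m))) := by
      rw [show n = (k r - t) + ((s (r + 1 + m) - s (r + 1)) + t') by omega, win_add, win_add,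
        show s r + t + (k r - t) = s (r + 1) by omega,
        show s (r + 1) + (s (r + 1 + m) - s (r + 1)) = s (r + 1 + m) by omega]
      congr 1
      · refine win_const _ _ _ _ (fun x hx => ?_)
        rw [add_assoc]
        exact K.k_run _ _ (by omega)
      · congr 1
        refine win_const _ _ _ _ (fun x hx => ?_)
        exact K.k_run _ _ (by omega)
    rw [← K.integ_win] at hw
    have hk : ∀ x ∈ win k (r + 1) m, 1 ≤ x := fun x hx => by
      rcases win_mem K _ _ x hx with h | h <;> omega
    rcases Nat.eq_zero_or_pos t' with h3 | h3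
    · have hw' : win k (s r + t) n = integ r ((k r - t) :: win k (r + 1) m) := by
        rw [hw, h3]; simp [integ]
      have hr : rle (win k (s r + t) n) = (k r - t) :: win k (r + 1) m := by
        rw [hw']
        refine rle_integ r _ (fun x hx => ?_)
        simp only [List.mem_cons] at hx
        rcases hx with rfl | hx
        · omega
        · exact hk x hx
      refine main (k r - t) r m [] ?_ (Or.inl rfl) (by rw [hr]; simp)
      have := K.le_two r
      omega
    · have hw' : win k (s r + t) n = integ r ((k r - t) :: (win k (r + 1) m ++ [t'])) := by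
        rw [hw]
        simp only [integ, integ_append, win_length, List.append_nil]
      have hr : rle (win k (s r + t) n) = (k r - t) :: (win k (r + 1) m ++ [t']) := by
        rw [hw']
        refine rle_integ r _ (fun x hx => ?_)
        simp only [List.mem_cons, List.mem_append, List.not_mem_nil, or_false] at hx
        rcases hx with rfl | hx | rfl
        · omega
        · exact hk x hx
        · omega
      refine main (k r - t) r m [t'] ?_ (Or.inr ⟨t', rfl, ?_⟩) hr
      · have := K.le_two r
        omega
      · have := K.le_two (r + 1 + m)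
        omega

lemma iter_der_fac (m : ℕ) : ∀ v, IsFac k v → IsFac k (der^[m] v) := by
  induction m with
  | zero => intro v h; exact h
  | succ m ih =>
    rintro v ⟨i, n, rfl⟩
    rw [Function.iterate_succ_apply]
    exact ih _ (K.der_fac i n)

lemma cinf_win (i n : ℕ) : Cinf (win k i n) := by
  intro m a ha
  obtain ⟨i', n', h⟩ := K.iter_der_fac m _ ⟨i, n, rfl⟩
  rw [h] at ha
  exact win_mem K _ _ a ha

/-- reading the run lengths -/
lemma read (u : List ℕ) : ∀ (j : ℕ), (∀ a ∈ u, 1 ≤ a) →
    integ j (u ++ [1]) = win k (s j) (u ++ [1]).sum → u = win k j u.length := by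
  induction u with
  | nil => intro j _ _; rfl
  | cons a u ih =>
    intro j hu h
    have hu' : ∀ a ∈ u, 1 ≤ a := fun x hx => hu x (by simp [hx])
    have ha := hu a (by simp)
    simp only [List.cons_append, integ, List.sum_cons] at h
    rw [win_add] at h
    have hlen : (List.replicate a (c j)).length = (win k (s j) a).length := by
      rw [List.length_replicate, win_length]
    obtain ⟨h1, h2⟩ := List.append_inj h hlen
    have h3 : ∀ x < a, k (s j + x) = c j := by
      have : win k (s j) a = win (fun _ => c j) 0 a := by
        rw [← h1]; exact (win_const _ _ _ _ (fun _ _ => rfl)).symm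
      intro x hx
      have h4 := congrArg (fun l => l[x]?) h1
      have h5 : (win k (s j) a)[x]? = some (k (s j + x)) := by
        rw [show a = x + (1 + (a - x - 1)) by omega, win_add, win_add]
        rw [List.getElem?_append_right (by rw [win_length])]
        simp [win_length, win]
      rw [h5] at h4
      rw [List.getElem?_replicate, if_pos hx] at h4
      exact (Option.some.inj h4).symm
    have hne : (u ++ [1]).sum = 1 + ((u ++ [1]).sum - 1) := by
      have : (u ++ [1]).sum = u.sum + 1 := by simp
      omega
    have h6 : k (s j + a) = c (j + 1) := by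
      have h7 : (integ (j + 1) (u ++ [1])).head? = some (c (j + 1)) := by
        cases u with
        | nil => simp [integ]
        | cons b u =>
          obtain ⟨b', rfl⟩ : ∃ b', b = b' + 1 := ⟨b - 1, by have := hu' b (by simp); omega⟩
          simp [integ, List.replicate_succ]
      rw [h2, hne, add_comm 1, win] at h7
      simpa using h7
    have h8 : k j = a := by
      rcases lt_trichotomy (k j) a with hc | hc | hc
      · exfalso
        have := h3 (k j) hc
        rw [← K.succ, K.k_s] at this
        exact c_succ_ne j this
      · exact hc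
      · exfalso
        have := K.k_run j a hc
        rw [h6] at this
        exact c_succ_ne j this
    have h9 : u = win k (j + 1) u.length := by
      refine ih (j + 1) hu' ?_
      rw [h2, K.succ, h8]
    simp only [List.length_cons, win]
    rw [h8, ← h9]

/-- if every smooth word occurs then every factor occurs at both parities -/
theorem free_of_cinf (h : ∀ w, Cinf w → ∃ i, win k i w.length = w) : Free k := by
  intro n i
  rcases Nat.eq_zero_or_pos n with h0 | h0
  · subst h0; exact ⟨i + 1, by omega, by simp⟩
  set u := win k i n with hu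
  have hul : u.length = n := win_length _ _ _
  have hu1 : ∀ a ∈ u, 1 ≤ a := fun a ha => by rcases win_mem K _ _ a ha with h | h <;> omega
  -- the word with both borders
  have hw1 : ∀ a ∈ 1 :: (u ++ [1]), 1 ≤ a := by
    intro a ha
    simp only [List.mem_cons, List.mem_append, List.not_mem_nil, or_false] at ha
    rcases ha with rfl | ha | rfl
    · exact le_rfl
    · exact hu1 a ha
    · exact le_rfl
  have hder : der (integ i (1 :: (u ++ [1]))) = u := by
    unfold der
    rw [rle_integ _ _ hw1]
    simp [dropOne]
  have hletters : ∀ e v, ∀ a ∈ integ e v, a = 1 ∨ a = 2 := by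
    intro e v
    induction v generalizing e with
    | nil => simp [integ]
    | cons b v ih =>
      intro a ha
      simp only [integ, List.mem_append, List.mem_replicate] at ha
      rcases ha with ⟨_, rfl⟩ | ha
      · exact c_mem e
      · exact ih _ a ha
  have hC : Cinf (integ i (1 :: (u ++ [1]))) := by
    intro m
    cases m with
    | zero => exact hletters _ _
    | succ m =>
      rw [Function.iterate_succ_apply, hder]
      exact K.cinf_win i n m
  obtain ⟨p, hp⟩ := h _ hC
  rw [length_integ, List.sum_cons, add_comm, win] at hp
  simp only [integ, List.replicate_one, List.singleton_append, List.cons.injEq] at hp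
  obtain ⟨hp1, hp2⟩ := hp
  -- the next letter is different
  have hsum : (u ++ [1]).sum = (u ++ [1]).sum - 1 + 1 := by simp
  have hp3 : k (p + 1) = c (i + 1) := by
    have h7 : (integ (i + 1) (u ++ [1])).head? = some (c (i + 1)) := by
      obtain ⟨b, v, hv⟩ : ∃ b v, u = b :: v :=
        List.exists_cons_of_ne_nil (by intro hc; rw [hc] at hul; simp at hul; omega)
      obtain ⟨b', rfl⟩ : ∃ b', b = b' + 1 := ⟨b - 1, by
        have := hu1 b (by rw [hv]; simp); omega⟩
      rw [hv]
      simp [integ, List.replicate_succ]
    rw [← hp2, hsum, win] at h7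
    simpa using h7
  obtain ⟨r, t, ht, hr⟩ := K.exists_run p
  have hr1 : p + 1 = s (r + 1) := by
    rw [K.succ]
    by_contra hc
    have h8 := K.k_run r (t + 1) (by omega)
    rw [show s r + (t + 1) = p + 1 by omega, hp3] at h8
    have h9 := K.k_run r t ht
    rw [← hr, hp1] at h9
    exact c_succ_ne i (by rw [h8, h9])
  have hpar : r % 2 = i % 2 := by
    have h9 := K.k_run r t ht
    rw [← hr, hp1] at h9
    exact (c_inj h9).symm
  refine ⟨r + 1, by omega, fun x hx => ?_⟩
  have h10 : u = win k (r + 1) u.length := by
    refine K.read u (r + 1) hu1 ?_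
    rw [integ_parity (e := r + 1) (f := i + 1) (by omega), ← hp2, hr1]
  rw [hul, hu] at h10
  exact ((win_eq_iff k i (r + 1) n).1 h10 x hx).symm

end Kol

end Pool.Agent.KolW
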