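import Pool.Agent.Kol.Free

/-!
# Counting factors in the free case
-/

namespace Pool.Agent.KolW

/-- the window as a function to the booleans -/
def fw (k : ℕ → ℕ) (n i : ℕ) : Fin n → Bool := fun t => decide (k (i + t) = 2)

lemma fw_eq_iff {k s : ℕ → ℕ} (K : Kol k s) (n i j : ℕ) :
    fw k n i = fw k n j ↔ ∀ t < n, k (i + t) = k (j + t) := by
  unfold fw
  constructor
  · intro h t ht
    have := congrFun h ⟨t, ht⟩
    simp only [decide_eq_decide] at this
    rcases K.mem (i + t) with a | a <;> rcases K.mem (j + t) with b | b <;> rw [a, b] at this ⊢ <;>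
      simp at this
  · intro h
    funext t
    simp only [decide_eq_decide]
    rw [h t t.2]

open Classical in
/-- the factors of length `n` -/
noncomputable def Fs (k : ℕ → ℕ) (n : ℕ) : Finset (Fin n → Bool) :=
  Finset.univ.filter (fun w => ∃ i, fw k n i = w)

lemma mem_Fs {k : ℕ → ℕ} {n : ℕ} {w : Fin n → Bool} : w ∈ Fs k n ↔ ∃ i, fw k n i = w := by
  simp [Fs]

lemma fw_mem (k : ℕ → ℕ) (n i : ℕ) : fw k n i ∈ Fs k n := mem_Fs.2 ⟨i, rfl⟩

/-- the number of factors, in the words of the problem -/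
lemma ncard_eq {k s : ℕ → ℕ} (K : Kol k s) (n : ℕ) :
    Set.ncard {w : Fin n → ℕ | ∃ i : ℕ, ∀ j : Fin n, w j = k (i + (j : ℕ))} = (Fs k n).card := by
  rw [← Set.ncard_coe_finset]
  have : (fun (b : Fin n → Bool) (j : Fin n) => if b j then 2 else 1) ''
      (Fs k n : Set (Fin n → Bool)) =
      {w : Fin n → ℕ | ∃ i : ℕ, ∀ j : Fin n, w j = k (i + (j : ℕ))} := by
    ext w
    simp only [Set.mem_image, Finset.mem_coe, mem_Fs, Set.mem_setOf_eq]
    constructor
    · rintro ⟨b, ⟨i, rfl⟩, rfl⟩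
      refine ⟨i, fun j => ?_⟩
      simp only [fw, decide_eq_true_eq]
      rcases K.mem (i + j) with a | a <;> rw [a] <;> simp
    · rintro ⟨i, hi⟩
      refine ⟨fw k n i, ⟨i, rfl⟩, ?_⟩
      funext j
      simp only [fw, decide_eq_true_eq]
      rw [hi j]
      rcases K.mem (i + j) with a | a <;> rw [a] <;> simp
  rw [← this]
  apply Set.ncard_image_of_injective
  intro a b h
  funext j
  have := congrFun h j
  simp only at this
  cases ha : a j <;> cases hb : b j <;> simp [ha, hb] at this ⊢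

lemma card_mono {k s : ℕ → ℕ} (_K : Kol k s) {m n : ℕ} (h : m ≤ n) :
    (Fs k m).card ≤ (Fs k n).card := by
  have : (Fs k n).image (fun w (t : Fin m) => w ⟨t, by omega⟩) = Fs k m := by
    ext w
    simp only [Finset.mem_image, mem_Fs]
    constructor
    · rintro ⟨_, ⟨i, rfl⟩, rfl⟩
      exact ⟨i, rfl⟩
    · rintro ⟨i, rfl⟩
      exact ⟨fw k n i, ⟨i, rfl⟩, rfl⟩
  rw [← this]
  exact Finset.card_image_le

lemma card_pos (k : ℕ → ℕ) (n : ℕ) : 1 ≤ (Fs k n).card :=
  Finset.card_pos.2 ⟨_, fw_mem k n 0⟩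

/-- the words which can be preceded by `2` -/
def HasTwo (k : ℕ → ℕ) (m : ℕ) (u : Fin m → Bool) : Prop := ∃ r, k r = 2 ∧ fw k m (r + 1) = u

open Classical in
noncomputable def G2 (k : ℕ → ℕ) (m : ℕ) : Finset (Fin m → Bool) :=
  Finset.univ.filter (HasTwo k m)

lemma card_le_two_mul {k s : ℕ → ℕ} (K : Kol k s) (hF : Free k) (m : ℕ) :
    (Fs k m).card ≤ 2 * (G2 k m).card := by
  classical
  have h1 : Fs k m ⊆ G2 k m ∪ (G2 k m).image (fun u t => !u t) := by
    intro w hw
    obtain ⟨i, rfl⟩ := mem_Fs.1 hw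
    obtain ⟨j, hj, _, hj'⟩ := hF.exists_ge m i 0 1
    obtain ⟨r, rfl⟩ : ∃ r, j = r + 1 := ⟨j - 1, by omega⟩
    have e : fw k m i = fw k m (r + 1) := (fw_eq_iff K m i (r + 1)).2 (fun t ht => (hj' t ht).symm)
    rw [e]
    rcases K.mem r with h | h
    · obtain ⟨q, hq⟩ := K.compl hF (m + 1) r
      refine Finset.mem_union_right _ (Finset.mem_image.2 ⟨fw k m (q + 1), ?_, ?_⟩)
      · refine Finset.mem_filter.2 ⟨Finset.mem_univ _, q, ?_, rfl⟩
        have := hq 0 (by omega)
        simp only [add_zero] at this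
        rw [this, h]
      · funext t
        simp only [fw]
        have h2 := hq (t + 1) (by omega)
        rw [show q + (↑t + 1) = q + 1 + t by ring, show r + (↑t + 1) = r + 1 + t by ring] at h2
        rw [h2]
        rcases K.mem (r + 1 + t) with a | a <;> rw [a] <;> simp
    · exact Finset.mem_union_left _ (Finset.mem_filter.2 ⟨Finset.mem_univ _, r, h, rfl⟩)
  have h2 := Finset.card_le_card h1
  have h3 := Finset.card_union_le (G2 k m) ((G2 k m).image (fun u t => !u t))
  have h4 : ((G2 k m).image (fun u t => !u t)).card ≤ (G2 k m).card := Finset.card_image_le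
  omega

/-- the growth inequality -/
lemma three_mul {k s : ℕ → ℕ} (K : Kol k s) (hF : Free k) (m : ℕ) :
    3 * (Fs k m).card ≤ (Fs k (m + 5 * ((m + 8) / 9) + 3)).card := by
  classical
  set U := m + 5 * ((m + 8) / 9) with hU
  -- choice of positions
  have e1 : ∀ (u : {u // u ∈ Fs k m}) (e : Fin 2), ∃ r : ℕ, r % 2 = (e : ℕ) ∧
      fw k m (r + 1) = u.1 := by
    rintro ⟨u, hu⟩ e
    obtain ⟨i, rfl⟩ := mem_Fs.1 hu
    obtain ⟨j, hj, hj1, hj2⟩ := hF.exists_ge m i (e + 1) 1
    refine ⟨j - 1, by omega, ?_⟩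
    rw [show j - 1 + 1 = j by omega]
    exact (fw_eq_iff K m j i).2 hj2
  choose r1 hr1 hr1' using e1
  have e2 : ∀ (u : {u // u ∈ G2 k m}) (e : Fin 2), ∃ r : ℕ, r % 2 = (e : ℕ) ∧ k r = 2 ∧
      fw k m (r + 1) = u.1 := by
    rintro ⟨u, hu⟩ e
    obtain ⟨r, hr, hr'⟩ := (Finset.mem_filter.1 hu).2
    obtain ⟨j, hj, hj1, hj2⟩ := hF.exists_ge (m + 1) r e 0
    refine ⟨j, by omega, ?_, ?_⟩
    · have := hj2 0 (by omega)
      simp only [add_zero] at this
      rw [this, hr]
    · refine Eq.trans ?_ hr'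
      refine (fw_eq_iff K m _ _).2 (fun t ht => ?_)
      have := hj2 (t + 1) (by omega)
      rw [show j + (t + 1) = j + 1 + t by ring, show r + (t + 1) = r + 1 + t by ring] at this
      exact this
  choose r2 hr2 hr2' hr2'' using e2
  -- the map
  let f : ({u // u ∈ Fs k m} × Fin 2) ⊕ ({u // u ∈ G2 k m} × Fin 2) → (Fin (U + 3) → Bool) :=
    fun x => match x with
      | Sum.inl p => fw k (U + 3) (s (r1 p.1 p.2 + 1) - 1)
      | Sum.inr p => fw k (U + 3) (s (r2 p.1 p.2))
  -- first letters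
  have a0 : ∀ r, k (s (r + 1) - 1) = c r := fun r =>
    K.run r _ (by have := K.s_lt r; omega) (by have := K.s_lt r; omega)
  have pos : ∀ r, 1 ≤ s (r + 1) := fun r => by have := K.s_lt r; omega
  have inj : Function.Injective f := by
    rintro (⟨u, e⟩ | ⟨u, e⟩) (⟨u', e'⟩ | ⟨u', e'⟩) h
    · simp only [f] at h
      have hw := (fw_eq_iff K _ _ _).1 h
      have h0 := hw 0 (by omega)
      simp only [add_zero, a0] at h0
      have hpar : (r1 u e) % 2 = (r1 u' e') % 2 := c_inj h0
      have he : e = e' := by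
        apply Fin.ext; rw [← hr1 u e, ← hr1 u' e', hpar]
      have hd := K.decode (i := r1 u e + 1) (i' := r1 u' e' + 1) (m := m) (by omega)
        (fun t ht => by
          have := hw (t + 1) (by omega)
          have p1 := pos (r1 u e)
          have p2 := pos (r1 u' e')
          rw [show s (r1 u e + 1) - 1 + (t + 1) = s (r1 u e + 1) + t by omega,
            show s (r1 u' e' + 1) - 1 + (t + 1) = s (r1 u' e' + 1) + t by omega] at this
          exact this)
      have hu : u = u' := by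
        apply Subtype.ext
        rw [← hr1' u e, ← hr1' u' e']
        exact (fw_eq_iff K m _ _).2 hd
      rw [hu, he]
    · exfalso
      simp only [f] at h
      have hw := (fw_eq_iff K _ _ _).1 h
      have h0 := hw 0 (by omega)
      have h1 := hw 1 (by omega)
      have p1 := pos (r1 u e)
      simp only [add_zero, a0, K.k_s] at h0
      rw [show s (r1 u e + 1) - 1 + 1 = s (r1 u e + 1) by omega, K.k_s,
        K.k_run _ 1 (by rw [hr2' u' e']; omega), ← h0] at h1
      exact c_succ_ne _ h1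
    · exfalso
      simp only [f] at h
      have hw := (fw_eq_iff K _ _ _).1 h.symm
      have h0 := hw 0 (by omega)
      have h1 := hw 1 (by omega)
      have p1 := pos (r1 u' e')
      simp only [add_zero, a0, K.k_s] at h0
      rw [show s (r1 u' e' + 1) - 1 + 1 = s (r1 u' e' + 1) by omega, K.k_s,
        K.k_run _ 1 (by rw [hr2' u e]; omega), ← h0] at h1
      exact c_succ_ne _ h1
    · simp only [f] at h
      have hw := (fw_eq_iff K _ _ _).1 h
      have h0 := hw 0 (by omega)
      simp only [add_zero, K.k_s] at h0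
      have hpar : (r2 u e) % 2 = (r2 u' e') % 2 := c_inj h0
      have he : e = e' := by
        apply Fin.ext; rw [← hr2 u e, ← hr2 u' e', hpar]
      have q1 := K.succ (r2 u e)
      have q2 := K.succ (r2 u' e')
      rw [hr2'] at q1 q2
      have hd := K.decode (i := r2 u e + 1) (i' := r2 u' e' + 1) (m := m) (by omega)
        (fun t ht => by
          have := hw (t + 2) (by omega)
          rw [show s (r2 u e) + (t + 2) = s (r2 u e + 1) + t by omega,
            show s (r2 u' e') + (t + 2) = s (r2 u' e' + 1) + t by omega] at this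
          exact this)
      have hu : u = u' := by
        apply Subtype.ext
        rw [← hr2'' u e, ← hr2'' u' e']
        exact (fw_eq_iff K m _ _).2 hd
      rw [hu, he]
  have hsub : Finset.univ.image f ⊆ Fs k (U + 3) := by
    intro w hw
    obtain ⟨x, _, rfl⟩ := Finset.mem_image.1 hw
    rcases x with x | x <;> exact fw_mem _ _ _
  have hc := Finset.card_le_card hsub
  rw [Finset.card_image_of_injective _ inj, Finset.card_univ] at hc
  simp only [Fintype.card_sum, Fintype.card_prod, Fintype.card_fin, Fintype.card_coe] at hc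
  have := card_le_two_mul K hF m
  omega

/-- the sequence of lengths -/
def len : ℕ → ℕ
  | 0 => 1
  | j + 1 => len j + 5 * ((len j + 8) / 9) + 3

lemma len_lt (j : ℕ) : len j < len (j + 1) := by simp only [len]; omega

lemma le_len (j : ℕ) : j < len j := by
  induction j with
  | zero => simp [len]
  | succ j ih => have := len_lt j; omega

lemma len_upper (j : ℕ) : 9 ^ j * (len j + 14) ≤ 14 ^ j * 15 := by
  induction j with
  | zero => simp [len]
  | succ j ih =>
    have h : 9 * (len (j + 1) + 14) ≤ 14 * (len j + 14) := by simp only [len]; omega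
    calc 9 ^ (j + 1) * (len (j + 1) + 14) = 9 ^ j * (9 * (len (j + 1) + 14)) := by ring
      _ ≤ 9 ^ j * (14 * (len j + 14)) := Nat.mul_le_mul_left _ h
      _ = 14 * (9 ^ j * (len j + 14)) := by ring
      _ ≤ 14 * (14 ^ j * 15) := Nat.mul_le_mul_left _ ih
      _ = 14 ^ (j + 1) * 15 := by ring

lemma card_len {k s : ℕ → ℕ} (K : Kol k s) (hF : Free k) (j : ℕ) :
    3 ^ j ≤ (Fs k (len j)).card := by
  induction j with
  | zero => exact card_pos k _
  | succ j ih =>
    have := three_mul K hF (len j)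
    simp only [len]
    rw [pow_succ]
    omega

/-- in the free case the number of factors is at least a constant times `n ^ (12/5)` -/
theorem free_lower {k s : ℕ → ℕ} (K : Kol k s) (hF : Free k) (n : ℕ) :
    n ^ 12 ≤ (15 ^ 12 * 3 ^ 5) * (Fs k n).card ^ 5 := by
  rcases Nat.eq_zero_or_pos n with h0 | h0
  · rw [h0]; simp
  -- the largest `j` with `len j ≤ n`
  obtain ⟨j, hj1, hj2⟩ : ∃ j, len j ≤ n ∧ n < len (j + 1) := by
    have hex : ∃ j, n < len j := ⟨n, le_len n⟩
    classical
    have hs := Nat.find_spec hex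
    have hm : Nat.find hex ≠ 0 := by
      intro h; rw [h] at hs; simp only [len] at hs; omega
    obtain ⟨j, hj⟩ := Nat.exists_eq_succ_of_ne_zero hm
    refine ⟨j, ?_, ?_⟩
    · by_contra hc
      exact Nat.find_min hex (m := j) (by omega) (by omega)
    · rw [hj] at hs; exact hs
  have h1 := card_len K hF j
  have h2 := card_mono K hj1
  have h3 := len_upper (j + 1)
  have h4 : 9 ^ (j + 1) * n ≤ 14 ^ (j + 1) * 15 :=
    le_trans (Nat.mul_le_mul_left _ (by omega)) h3
  have h5 : (9 ^ (j + 1) * n) ^ 12 ≤ (14 ^ (j + 1) * 15) ^ 12 := Nat.pow_le_pow_left h4 12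
  have h6 : (14 : ℕ) ^ 12 ≤ 3 ^ 5 * 9 ^ 12 := by norm_num
  have h7 : (14 ^ 12) ^ (j + 1) ≤ (3 ^ 5 * 9 ^ 12) ^ (j + 1) := Nat.pow_le_pow_left h6 _
  have h8 : 9 ^ (12 * (j + 1)) * n ^ 12 ≤ 9 ^ (12 * (j + 1)) *
      ((15 ^ 12 * 3 ^ 5) * (Fs k n).card ^ 5) := by
    calc 9 ^ (12 * (j + 1)) * n ^ 12 = (9 ^ (j + 1) * n) ^ 12 := by
            rw [mul_pow, ← pow_mul, mul_comm 12 (j + 1)]
      _ ≤ (14 ^ (j + 1) * 15) ^ 12 := h5
      _ = (14 ^ 12) ^ (j + 1) * 15 ^ 12 := by
            rw [mul_pow, ← pow_mul, ← pow_mul, mul_comm (j + 1) 12]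
      _ ≤ (3 ^ 5 * 9 ^ 12) ^ (j + 1) * 15 ^ 12 := Nat.mul_le_mul_right _ h7
      _ = 9 ^ (12 * (j + 1)) * ((15 ^ 12 * 3 ^ 5) * (3 ^ j) ^ 5) := by
            rw [mul_pow, ← pow_mul, ← pow_mul, ← pow_mul]; ring
      _ ≤ 9 ^ (12 * (j + 1)) * ((15 ^ 12 * 3 ^ 5) * (Fs k n).card ^ 5) := by
            apply Nat.mul_le_mul_left
            apply Nat.mul_le_mul_left
            exact Nat.pow_le_pow_left (h1.trans h2) 5
  exact Nat.le_of_mul_le_mul_left h8 (by positivity)

end Pool.Agent.KolW
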