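import Mathlib

/-!
# Definitions used in the statement: smooth words, morphic words
-/

namespace Pool.Agent.KolW

/-- adds one to the first entry -/
def incr : List ℕ → List ℕ
  | [] => []
  | r :: v => (r + 1) :: v

/-- the list of the lengths of the maximal runs of a word -/
def rle : List ℕ → List ℕ
  | [] => []
  | [_] => [1]
  | a :: b :: w => if a = b then incr (rle (b :: w)) else 1 :: rle (b :: w)

/-- remove the first entry if it is `1` -/
def dropOne : List ℕ → List ℕ
  | [] => []
  | a :: v => if a = 1 then v else a :: v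

/-- the derivative of a word: the run lengths, where the first and the last are removed if
they are equal to `1` -/
def der (w : List ℕ) : List ℕ := (dropOne (dropOne (rle w)).reverse).reverse

/-- the smooth words (`C^∞` words): the word and all its derivatives are words over `{1, 2}` -/
def Cinf (w : List ℕ) : Prop := ∀ n, ∀ a ∈ der^[n] w, a = 1 ∨ a = 2

/-- `w` is a factor of `k` -/
def Factor (k : ℕ → ℕ) (w : List ℕ) : Prop := ∃ i, ∀ j (h : j < w.length), w[j] = k (i + j)

/-- the word `k` is the coding of a fixed point of a nonerasing morphism over a finite alphabet,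
growing from its first letter -/
def Morphic (k : ℕ → ℕ) : Prop :=
  ∃ (A : Type) (_ : Finite A) (σ : A → List A) (τ : A → ℕ) (x : ℕ → A),
    (∀ a, σ a ≠ []) ∧ 2 ≤ (σ (x 0)).length ∧
    (∀ n, ∃ L, ((List.range n).map x).flatMap σ = (List.range L).map x) ∧
    ∀ n, k n = τ (x n)

/-- the number of factors of `k` of length `n` -/
noncomputable def cplx (k : ℕ → ℕ) (n : ℕ) : ℕ :=
  Set.ncard {w : Fin n → ℕ | ∃ i : ℕ, ∀ j : Fin n, w j = k (i + (j : ℕ))}

/-- the factor of length `n` at position `i` occurs with bounded gaps -/
def BGap (k : ℕ → ℕ) (n i : ℕ) : Prop :=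
  ∃ R, ∀ j, ∃ m, j ≤ m ∧ m ≤ j + R ∧ ∀ t < n, k (m + t) = k (i + t)

/-- the factor of length `n` at position `i` occurs at positions of one parity only -/
def OnePar (k : ℕ → ℕ) (n i : ℕ) : Prop :=
  ∀ j, (∀ t < n, k (j + t) = k (i + t)) → j % 2 = i % 2

end Pool.Agent.KolW
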