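import Pool.Agent.Kol.Det

/-!
# If the parity is determined by windows then the density of the letter two is not rational
-/

namespace Pool.Agent.KolW

open Filter Topology

variable {k s : ℕ → ℕ}

lemma s_eq_count (K : Kol k s) (n : ℕ) :
    s n = n + ((Finset.range n).filter (fun i => k i = 2)).card := by
  induction n with
  | zero => simp [K.s0]
  | succ n ih =>
    rw [K.succ, ih, Finset.range_add_one, Finset.filter_insert]
    rcases K.mem n with h | h
    · rw [h]; simp only [show ((1 : ℕ) = 2) = False by simp, if_false]; omega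
    · rw [h, if_pos rfl, Finset.card_insert_of_notMem (by simp)]; omega

/-- the block decomposition of a sum -/
lemma sum_block (K : Kol k s) (g : ℕ → ℤ) (n : ℕ) :
    ∑ x ∈ Finset.range (s n), g x =
      ∑ p ∈ Finset.range n, ∑ t ∈ Finset.range (k p), g (s p + t) := by
  induction n with
  | zero => simp [K.s0]
  | succ n ih =>
    rw [K.succ, Finset.sum_range_add, ih, Finset.sum_range_succ]

/-- the vector of the numbers of occurrences below `n` -/
def cnt (k : ℕ → ℕ) (N n : ℕ) (w : Fin N → Bool) : ℤ :=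
  ∑ p ∈ Finset.range n, if fw k N p = w then 1 else 0

lemma sum_cnt (k : ℕ → ℕ) (N n : ℕ) : ∑ w, cnt k N n w = n := by
  unfold cnt
  rw [Finset.sum_comm]
  simp

open Classical in
/-- the matrix of the substitution -/
noncomputable def Am (k s : ℕ → ℕ) (N : ℕ) : Matrix (Fin N → Bool) (Fin N → Bool) ℤ :=
  fun w' w => if h : ∃ p, fw k N p = w then
    ∑ t ∈ Finset.range (k h.choose), if fw k N (s h.choose + t) = w' then 1 else 0 else 0

lemma Am_fw (K : Kol k s) {N : ℕ} (hN : 9 ≤ N) (hD : Det k N) (w' : Fin N → Bool) (p : ℕ) :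
    Am k s N w' (fw k N p) =
      ∑ t ∈ Finset.range (k p), if fw k N (s p + t) = w' then 1 else 0 := by
  have h : ∃ q, fw k N q = fw k N p := ⟨p, rfl⟩
  unfold Am
  rw [dif_pos h]
  have he : Eqv k N h.choose p := (fw_eq_iff K _ _ _).1 h.choose_spec
  have hk : k h.choose = k p := by simpa using he 0 (by omega)
  have hs := K.step hN hD he
  rw [hk] at hs ⊢
  refine Finset.sum_congr rfl (fun t ht => ?_)
  have := (fw_eq_iff K N _ _).2 (hs t (Finset.mem_range.1 ht))
  rw [this]

lemma cnt_s (K : Kol k s) {N : ℕ} (hN : 9 ≤ N) (hD : Det k N) (n : ℕ) :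
    cnt k N (s n) = (Am k s N).mulVec (cnt k N n) := by
  funext w'
  unfold cnt
  rw [sum_block K]
  simp only [Matrix.mulVec, dotProduct]
  simp_rw [Finset.mul_sum]
  rw [Finset.sum_comm]
  refine Finset.sum_congr rfl (fun p _ => ?_)
  rw [← Am_fw K hN hD]
  simp

lemma cnt_iter (K : Kol k s) {N : ℕ} (hN : 9 ≤ N) (hD : Det k N) (i n : ℕ) :
    cnt k N (s^[i] n) = ((Am k s N) ^ i).mulVec (cnt k N n) := by
  induction i with
  | zero => simp
  | succ i ih =>
    rw [Function.iterate_succ_apply', cnt_s K hN hD, ih, Matrix.mulVec_mulVec, ← pow_succ']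

/-- the linear recurrence -/
lemma recurrence (K : Kol k s) {N : ℕ} (hN : 9 ≤ N) (hD : Det k N) (n : ℕ) :
    ∑ i ∈ Finset.range ((Am k s N).charpoly.natDegree + 1),
      (Am k s N).charpoly.coeff i * (s^[i] n : ℤ) = 0 := by
  set P := (Am k s N).charpoly with hP
  have h1 : Polynomial.aeval (Am k s N) P = 0 := Matrix.aeval_self_charpoly _
  rw [Polynomial.aeval_eq_sum_range] at h1
  have h2 : (∑ i ∈ Finset.range (P.natDegree + 1), P.coeff i • (Am k s N) ^ i).mulVec
      (cnt k N n) = 0 := by rw [h1, Matrix.zero_mulVec]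
  rw [Matrix.sum_mulVec] at h2
  have h3 : ∑ w, (∑ i ∈ Finset.range (P.natDegree + 1),
      (P.coeff i • (Am k s N) ^ i).mulVec (cnt k N n)) w = 0 := by rw [h2]; simp
  rw [← h3]
  simp only [Finset.sum_apply]
  rw [Finset.sum_comm]
  refine Finset.sum_congr rfl (fun i _ => ?_)
  rw [← sum_cnt k N (s^[i] n), Finset.mul_sum]
  refine Finset.sum_congr rfl (fun w _ => ?_)
  rw [cnt_iter K hN hD, Matrix.smul_mulVec]
  simp

lemma le_L (K : Kol k s) (j : ℕ) : j + 1 ≤ s^[j] 1 := by
  induction j with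
  | zero => simp
  | succ j ih =>
    rw [Function.iterate_succ_apply']
    have := K.succ_le_s (i := s^[j] 1) (by omega)
    omega

/-- the density when the parity is determined -/
theorem dens_integral (K : Kol k s) {N : ℕ} (hN : 9 ≤ N) (hD : Det k N) (q : ℝ)
    (h : Tendsto (fun n : ℕ => (((Finset.range n).filter (fun i => k i = 2)).card : ℝ) / n)
      atTop (𝓝 q)) : IsIntegral ℤ (1 + q) ∧ Irrational q := by
  -- the limit of `s n / n`
  have h1 : Tendsto (fun n : ℕ => (s n : ℝ) / n) atTop (𝓝 (1 + q)) := by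
    have h2 : Tendsto (fun n : ℕ => (1 : ℝ) +
        (((Finset.range n).filter (fun i => k i = 2)).card : ℝ) / n) atTop
        (𝓝 (1 + q)) := h.const_add 1
    refine h2.congr' ?_
    filter_upwards [eventually_gt_atTop 0] with n hn
    have : (n : ℝ) ≠ 0 := by positivity
    rw [s_eq_count K n]
    push_cast
    field_simp
  set l : ℝ := 1 + q with hl
  have hL : Tendsto (fun j => s^[j] 1) atTop atTop :=
    tendsto_atTop_mono (fun j => (show j ≤ s^[j] 1 by have := le_L K j; omega)) tendsto_id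
  have hpos : ∀ j, (0 : ℝ) < (s^[j] 1 : ℕ) := fun j => by
    have := le_L K j
    have : 0 < s^[j] 1 := by omega
    exact_mod_cast this
  -- ratios
  have h3 : ∀ i, Tendsto (fun j => ((s^[i] (s^[j] 1) : ℕ) : ℝ) / (s^[j] 1 : ℕ)) atTop
      (𝓝 (l ^ i)) := by
    intro i
    induction i with
    | zero =>
      simp only [Function.iterate_zero, id, pow_zero]
      refine tendsto_const_nhds.congr (fun j => ?_)
      rw [div_self (hpos j).ne']
    | succ i ih =>
      have h4 : Tendsto (fun j => ((s (s^[i] (s^[j] 1)) : ℕ) : ℝ) / (s^[i] (s^[j] 1) : ℕ)) atTop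
          (𝓝 l) := by
        have h5 : Tendsto (fun j => s^[i] (s^[j] 1)) atTop atTop := by
          refine tendsto_atTop_mono (fun j => ?_) hL
          exact (K.iter_strictMono i).le_apply
        exact h1.comp h5
      have h6 := ih.mul h4
      rw [← pow_succ] at h6
      refine h6.congr (fun j => ?_)
      rw [Function.iterate_succ_apply']
      have a1 : (0 : ℝ) < (s^[i] (s^[j] 1) : ℕ) := by
        have := (K.iter_strictMono i).le_apply (x := s^[j] 1)
        have h7 := le_L K j
        have : 0 < s^[i] (s^[j] 1) := by omega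
        exact_mod_cast this
      have a2 := hpos j
      field_simp
  -- the polynomial vanishes
  set P := (Am k s N).charpoly with hP
  have h7 : Tendsto (fun j => ∑ i ∈ Finset.range (P.natDegree + 1),
      (P.coeff i : ℝ) * (((s^[i] (s^[j] 1) : ℕ) : ℝ) / (s^[j] 1 : ℕ))) atTop
      (𝓝 (∑ i ∈ Finset.range (P.natDegree + 1), (P.coeff i : ℝ) * l ^ i)) :=
    tendsto_finsetSum _ (fun i _ => (h3 i).const_mul _)
  have h8 : ∀ j, ∑ i ∈ Finset.range (P.natDegree + 1),
      (P.coeff i : ℝ) * (((s^[i] (s^[j] 1) : ℕ) : ℝ) / (s^[j] 1 : ℕ)) = 0 := by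
    intro j
    have h9 := recurrence K hN hD (s^[j] 1)
    have h10 : ∑ i ∈ Finset.range (P.natDegree + 1),
        (P.coeff i : ℝ) * ((s^[i] (s^[j] 1) : ℕ) : ℝ) = 0 := by exact_mod_cast h9
    rw [← zero_div ((s^[j] 1 : ℕ) : ℝ), ← h10, Finset.sum_div]
    refine Finset.sum_congr rfl (fun i _ => ?_)
    rw [mul_div_assoc]
  have h11 : ∑ i ∈ Finset.range (P.natDegree + 1), (P.coeff i : ℝ) * l ^ i = 0 := by
    refine tendsto_nhds_unique h7 ?_
    simp_rw [h8]
    exact tendsto_const_nhds
  have hint : IsIntegral ℤ l := by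
    refine ⟨P, Matrix.charpoly_monic _, ?_⟩
    rw [Polynomial.eval₂_eq_sum_range]
    simpa using h11
  refine ⟨hint, ?_⟩
  -- bounds
  have h13 : Tendsto (fun m : ℕ => (s (9 * (m + 1)) : ℝ) / ((9 * (m + 1) : ℕ) : ℝ)) atTop
      (𝓝 l) := by
    have h14 : Tendsto (fun m : ℕ => 9 * (m + 1)) atTop atTop :=
      tendsto_atTop_mono (fun m => (show m ≤ 9 * (m + 1) by omega)) tendsto_id
    exact h1.comp h14
  have hlo : (13 / 9 : ℝ) ≤ l := by
    refine ge_of_tendsto' h13 (fun m => ?_)
    have := K.nine_mul_lower 0 (m + 1)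
    rw [K.s0, zero_add, zero_add] at this
    rw [le_div_iff₀ (by positivity)]
    have h15 : ((13 * (m + 1) : ℕ) : ℝ) ≤ (s (9 * (m + 1)) : ℝ) := by exact_mod_cast this
    push_cast at h15 ⊢
    linarith
  have hhi : l ≤ 14 / 9 := by
    refine le_of_tendsto' h13 (fun m => ?_)
    have := K.nine_mul_upper 0 (m + 1)
    rw [K.s0, zero_add, zero_add] at this
    rw [div_le_iff₀ (by positivity)]
    have h15 : (s (9 * (m + 1)) : ℝ) ≤ ((14 * (m + 1) : ℕ) : ℝ) := by exact_mod_cast this
    push_cast at h15 ⊢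
    linarith
  rintro ⟨r, hr⟩
  have hlr : ((1 + r : ℚ) : ℝ) = l := by rw [hl, ← hr]; push_cast; ring
  have hint' : IsIntegral ℤ (1 + r : ℚ) := by
    rw [← hlr] at hint
    exact (isIntegral_algebraMap_iff (algebraMap ℚ ℝ).injective).1 hint
  obtain ⟨z, hz⟩ := IsIntegrallyClosed.isIntegral_iff.1 hint'
  have hz' : (z : ℝ) = l := by rw [← hlr, ← hz]; simp
  rw [← hz'] at hlo hhi
  have c1 : (1 : ℝ) < z := by linarith
  have c2 : (z : ℝ) < 2 := by linarith
  have d1 : (1 : ℤ) < z := by exact_mod_cast c1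
  have d2 : z < (2 : ℤ) := by exact_mod_cast c2
  omega

end Pool.Agent.KolW
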