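import Pool.Agent.Kol.Count

/-!
# Uniform recurrence, and a factor which occurs at one parity only: linear complexity
-/

namespace Pool.Agent.KolW

/-- every factor which occurs at positions of one parity only occurs with bounded gaps -/
def HH (k : ℕ → ℕ) : Prop :=
  ∀ n i, (∀ j, (∀ t < n, k (j + t) = k (i + t)) → j % 2 = i % 2) →
    ∃ R, ∀ j, ∃ m, j ≤ m ∧ m ≤ j + R ∧ ∀ t < n, k (m + t) = k (i + t)

/-- windows of length `N` agree -/
def Eqv (k : ℕ → ℕ) (N i i' : ℕ) : Prop := ∀ t < N, k (i + t) = k (i' + t)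

/-- the parity of a position is determined by the window of length `N` -/
def Det (k : ℕ → ℕ) (N : ℕ) : Prop := ∀ i i', Eqv k N i i' → i % 2 = i' % 2

lemma exists_det {k : ℕ → ℕ} (hU : HH k) (hF : ¬ Free k) : ∃ N, 9 ≤ N ∧ Det k N := by
  unfold Free at hF
  push Not at hF
  obtain ⟨n0, i0, h0⟩ := hF
  obtain ⟨R, hR⟩ := hU n0 i0 (fun j hj => by
    by_contra hc
    obtain ⟨t, ht, ht'⟩ := h0 j hc
    exact ht' (hj t ht))
  refine ⟨max (R + n0) 9, le_max_right _ _, fun i i' h => ?_⟩
  obtain ⟨m, hm1, hm2, hm3⟩ := hR i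
  have h1 : m % 2 = i0 % 2 := by
    by_contra hc
    obtain ⟨t, ht, ht'⟩ := h0 m hc
    exact ht' (hm3 t ht)
  have h2 : (i' + (m - i)) % 2 = i0 % 2 := by
    by_contra hc
    obtain ⟨t, ht, ht'⟩ := h0 _ hc
    apply ht'
    rw [← hm3 t ht]
    have := h ((m - i) + t) (by
      have := le_max_left (R + n0) 9
      omega)
    rw [show i + (m - i + t) = m + t by omega] at this
    rw [this]
    congr 1; ring
  omega

namespace Kol

variable {k s : ℕ → ℕ} (K : Kol k s)
include K

lemma iter_strictMono (j : ℕ) : StrictMono (s^[j]) := K.strictMono.iterate j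

lemma iter_zero (j : ℕ) : s^[j] 0 = 0 := by
  induction j with
  | zero => rfl
  | succ j ih => rw [Function.iterate_succ_apply', ih, K.s0]

lemma iter_add_le (j i n : ℕ) : s^[j] i + n ≤ s^[j] (i + n) := by
  induction n with
  | zero => simp
  | succ n ih =>
    have := K.iter_strictMono j (show i + n < i + n + 1 by omega)
    rw [show i + (n + 1) = i + n + 1 by ring]; omega

/-- every position lies in a block of level `j` -/
lemma exists_block (j p : ℕ) : ∃ i t, s^[j] i + t < s^[j] (i + 1) ∧ p = s^[j] i + t := by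
  induction p with
  | zero =>
    refine ⟨0, 0, ?_, by rw [K.iter_zero]⟩
    have := K.iter_strictMono j (show 0 < 0 + 1 by omega)
    omega
  | succ p ih =>
    obtain ⟨i, t, ht, hp⟩ := ih
    by_cases h : s^[j] i + (t + 1) < s^[j] (i + 1)
    · exact ⟨i, t + 1, h, by omega⟩
    · refine ⟨i + 1, 0, ?_, by omega⟩
      have := K.iter_strictMono j (show i + 1 < i + 1 + 1 by omega)
      omega

/-- growth of the blocks -/
lemma growth (j i : ℕ) : s^[j] i + (j + 1) ≤ s^[j] (i + 2) := by
  rcases j with _ | _ | j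
  · simp
  · simpa using K.add_le i 2
  · induction j with
    | zero =>
      simp only [Function.iterate_succ_apply', Function.iterate_zero, id]
      exact K.two_two i
    | succ j ih =>
      have ih' : s^[j + 2] i + (j + 2 + 1) ≤ s^[j + 2] (i + 2) := ih
      clear ih
      change s^[j + 2 + 1] i + (j + 2 + 1 + 1) ≤ s^[j + 2 + 1] (i + 2)
      have h1 : s^[j + 2] (i + 2) = s^[j + 2] i + (s^[j + 2] (i + 2) - s^[j + 2] i) := by
        have := K.iter_strictMono (j + 2) (show i < i + 2 by omega)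
        omega
      have h2 := K.lower_three (s^[j + 2] i) (s^[j + 2] (i + 2) - s^[j + 2] i) (by omega)
      rw [← h1] at h2
      rw [Function.iterate_succ_apply', Function.iterate_succ_apply' s (j + 2) (i + 2)]
      omega

lemma step {N i i' : ℕ} (hN : 9 ≤ N) (hD : Det k N) (h : Eqv k N i i') :
    ∀ t < k i, Eqv k N (s i + t) (s i' + t) := by
  intro t ht t' ht'
  have h1 := K.transfer_same (hD i i' h) h (t + t')
    (by have := K.lower_three i N (by omega); have := K.le_two i; omega)
  rw [add_assoc, add_assoc]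
  exact h1

lemma block_eq {N : ℕ} (hN : 9 ≤ N) (hD : Det k N) (j : ℕ) : ∀ i i', Eqv k N i i' →
    s^[j] (i + 1) - s^[j] i = s^[j] (i' + 1) - s^[j] i' ∧
    ∀ t < s^[j] (i + 1) - s^[j] i, Eqv k N (s^[j] i + t) (s^[j] i' + t) := by
  induction j with
  | zero =>
    intro i i' h
    refine ⟨by simp, fun t ht => ?_⟩
    have : t = 0 := by simp at ht; omega
    subst this
    simpa using h
  | succ j ih =>
    intro i i' h
    have hk : k i = k i' := by simpa using h 0 (by omega)
    have hst := K.step hN hD h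
    obtain ⟨a1, a2⟩ := ih _ _ (hst 0 (K.one_le i))
    simp only [add_zero] at a1 a2
    simp only [Function.iterate_succ_apply, K.succ i, K.succ i', ← hk]
    have m1 := K.iter_strictMono j (show s i < s i + 1 by omega)
    have m1' := K.iter_strictMono j (show s i' < s i' + 1 by omega)
    rcases K.mem i with hi | hi
    · rw [hi]; exact ⟨a1, a2⟩
    · obtain ⟨b1, b2⟩ := ih _ _ (hst 1 (by omega))
      rw [hi]
      have m2 := K.iter_strictMono j (show s i + 1 < s i + 1 + 1 by omega)
      have m2' := K.iter_strictMono j (show s i' + 1 < s i' + 1 + 1 by omega)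
      rw [show s i + 2 = s i + 1 + 1 by ring, show s i' + 2 = s i' + 1 + 1 by ring]
      refine ⟨by omega, fun t ht => ?_⟩
      by_cases hc : t < s^[j] (s i + 1) - s^[j] (s i)
      · exact a2 t hc
      · have := b2 (t - (s^[j] (s i + 1) - s^[j] (s i))) (by omega)
        rw [show s^[j] (s i) + t = s^[j] (s i + 1) + (t - (s^[j] (s i + 1) - s^[j] (s i))) by omega,
          show s^[j] (s i') + t = s^[j] (s i' + 1) + (t - (s^[j] (s i + 1) - s^[j] (s i))) by omega]
        exact this

/-- the sum over several blocks -/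
lemma blocks_le (j B : ℕ) (hB : ∀ i, s^[j] (i + 1) ≤ s^[j] i + B) (i x : ℕ) :
    s^[j] (i + x) ≤ s^[j] i + x * B := by
  induction x with
  | zero => simp
  | succ x ih =>
    have := hB (i + x)
    rw [show i + (x + 1) = i + x + 1 by ring, add_mul]
    omega

lemma block_two_pow (j i : ℕ) : s^[j] (i + 1) ≤ s^[j] i + 2 ^ j := by
  induction j generalizing i with
  | zero => simp
  | succ j ih =>
    rw [Function.iterate_succ_apply, Function.iterate_succ_apply, K.succ]
    have h1 := K.blocks_le j (2 ^ j) ih (s i) (k i)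
    have h2 := K.le_two i
    have h3 : k i * 2 ^ j ≤ 2 * 2 ^ j := Nat.mul_le_mul_right _ h2
    rw [pow_succ]
    omega

/-- the blocks of one level have comparable sizes -/
lemma compare {N : ℕ} (hN : 9 ≤ N) (hD : Det k N) {R : ℕ}
    (hR : ∀ i j, ∃ m, j ≤ m ∧ m ≤ j + R ∧ Eqv k N m i) (j i i' : ℕ) :
    s^[j] (i + 1) - s^[j] i ≤ 2 ^ (R + 2) * (s^[j] (i' + 2) - s^[j] i') := by
  set T := R + 2 with hT
  have hpos : 1 ≤ s^[j] (i' + 2) - s^[j] i' := by
    have := K.iter_strictMono j (show i' < i' + 2 by omega)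
    omega
  by_cases hj : j < T
  · have h1 := K.block_two_pow j i
    have h2 : 2 ^ j ≤ 2 ^ T := Nat.pow_le_pow_right (by norm_num) (by omega)
    calc s^[j] (i + 1) - s^[j] i ≤ 2 ^ T * 1 := by omega
      _ ≤ _ := Nat.mul_le_mul_left _ hpos
  · obtain ⟨a, rfl⟩ : ∃ a, j = a + T := ⟨j - T, by omega⟩
    set B := s^[a + T] (i' + 2) - s^[a + T] i' with hB
    have key : ∀ q, s^[a] (q + 1) ≤ s^[a] q + B := by
      intro q
      obtain ⟨m, hm1, hm2, hm3⟩ := hR q (s^[T] i')
      have h1 := (K.block_eq hN hD a m q hm3).1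
      have h2 := K.growth T i'
      have h3 : m + 1 ≤ s^[T] (i' + 2) := by omega
      have h4 := (K.iter_strictMono a).monotone h3
      have h5 := (K.iter_strictMono a).monotone hm1
      have h6 : s^[a + T] (i' + 2) = s^[a] (s^[T] (i' + 2)) := by
        rw [Function.iterate_add_apply]
      have h7 : s^[a + T] i' = s^[a] (s^[T] i') := by rw [Function.iterate_add_apply]
      have h8 := K.iter_strictMono a (show m < m + 1 by omega)
      have h9 := K.iter_strictMono a (show q < q + 1 by omega)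
      omega
    have h1 := K.block_two_pow T i
    have h2 := K.blocks_le a B key (s^[T] i) (s^[T] (i + 1) - s^[T] i)
    have h3 := K.iter_strictMono T (show i < i + 1 by omega)
    rw [show s^[T] i + (s^[T] (i + 1) - s^[T] i) = s^[T] (i + 1) by omega,
      ← Function.iterate_add_apply, ← Function.iterate_add_apply] at h2
    have h4 : (s^[T] (i + 1) - s^[T] i) * B ≤ 2 ^ T * B := Nat.mul_le_mul_right _ (by omega)
    omega

end Kol

/-- bounded gaps for all windows of length `N` -/
lemma gaps {k s : ℕ → ℕ} (K : Kol k s) (hU : HH k) {N : ℕ} (hD : Det k N) :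
    ∃ R, ∀ i j, ∃ m, j ≤ m ∧ m ≤ j + R ∧ Eqv k N m i := by
  classical
  have h1 : ∀ i, ∃ R, ∀ j, ∃ m, j ≤ m ∧ m ≤ j + R ∧ Eqv k N m i := fun i =>
    hU N i (fun j hj => hD j i hj)
  choose r hr using h1
  let g : (Fin N → Bool) → ℕ := fun w => if h : ∃ i, fw k N i = w then r h.choose else 0
  refine ⟨Finset.univ.sup g, fun i j => ?_⟩
  have h : ∃ q, fw k N q = fw k N i := ⟨i, rfl⟩
  obtain ⟨m, hm1, hm2, hm3⟩ := hr h.choose j
  have h2 : g (fw k N i) = r h.choose := dif_pos h
  have h3 : g (fw k N i) ≤ Finset.univ.sup g := Finset.le_sup (Finset.mem_univ _)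
  refine ⟨m, hm1, by omega, fun t ht => ?_⟩
  rw [hm3 t ht, (fw_eq_iff K N _ _).1 h.choose_spec t ht]

/-- bounded gaps, not free: linear complexity -/
theorem det_upper {k s : ℕ → ℕ} (K : Kol k s) (hU : HH k) {N : ℕ} (hN : 9 ≤ N)
    (hD : Det k N) : ∃ C, ∀ n, 1 ≤ n → (Fs k n).card ≤ C * n := by
  classical
  obtain ⟨R, hR'⟩ := gaps K hU hD
  refine ⟨(Fs k (N + 2)).card * (2 * 2 ^ (R + 2)), fun n hn => ?_⟩
  -- the level
  obtain ⟨j, hj1, hj2⟩ : ∃ j, (∀ i, n ≤ s^[j] (i + 2) - s^[j] i) ∧
      ∀ i, s^[j] (i + 1) ≤ s^[j] i + 2 * 2 ^ (R + 2) * n := by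
    have hex : ∃ j, ∀ i, n ≤ s^[j] (i + 2) - s^[j] i :=
      ⟨n, fun i => by have := K.growth n i; omega⟩
    refine ⟨Nat.find hex, Nat.find_spec hex, ?_⟩
    rcases Nat.eq_zero_or_pos (Nat.find hex) with h | h
    · intro i
      rw [h]
      simp only [Function.iterate_zero, id]
      have : 1 ≤ 2 * 2 ^ (R + 2) * n := Nat.succ_le_of_lt (by positivity)
      omega
    · obtain ⟨a, ha⟩ := Nat.exists_eq_succ_of_ne_zero h.ne'
      have hm := Nat.find_min hex (m := a) (by omega)
      push Not at hm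
      obtain ⟨i', hi'⟩ := hm
      have h1 : ∀ q, s^[a] (q + 1) ≤ s^[a] q + 2 ^ (R + 2) * n := by
        intro q
        have h2 := K.compare hN hD hR' a q i'
        have h3 : 2 ^ (R + 2) * (s^[a] (i' + 2) - s^[a] i') ≤ 2 ^ (R + 2) * n :=
          Nat.mul_le_mul_left _ hi'.le
        omega
      intro i
      rw [ha, Nat.succ_eq_add_one, Function.iterate_succ_apply, Function.iterate_succ_apply,
        K.succ]
      have h4 := K.blocks_le a _ h1 (s i) (k i)
      have h5 : k i * (2 ^ (R + 2) * n) ≤ 2 * (2 ^ (R + 2) * n) :=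
        Nat.mul_le_mul_right _ (K.le_two i)
      rw [mul_assoc]
      omega
  -- three consecutive blocks
  have three : ∀ i i', Eqv k (N + 2) i i' → ∀ x < s^[j] (i + 3) - s^[j] i,
      k (s^[j] i + x) = k (s^[j] i' + x) := by
    intro i i' h x hx
    have e0 : Eqv k N i i' := fun t ht => h t (by omega)
    have e1 : Eqv k N (i + 1) (i' + 1) := fun t ht => by
      have := h (1 + t) (by omega)
      rw [← add_assoc, ← add_assoc] at this; exact this
    have e2 : Eqv k N (i + 1 + 1) (i' + 1 + 1) := fun t ht => by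
      have := h (1 + 1 + t) (by omega)
      rw [show i + (1 + 1 + t) = i + 1 + 1 + t by ring,
        show i' + (1 + 1 + t) = i' + 1 + 1 + t by ring] at this
      exact this
    have b0 := K.block_eq hN hD j _ _ e0
    have b1 := K.block_eq hN hD j _ _ e1
    have b2 := K.block_eq hN hD j _ _ e2
    have m0 := K.iter_strictMono j (show i < i + 1 by omega)
    have m1 := K.iter_strictMono j (show i + 1 < i + 1 + 1 by omega)
    have m2 := K.iter_strictMono j (show i + 1 + 1 < i + 1 + 1 + 1 by omega)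
    have m0' := K.iter_strictMono j (show i' < i' + 1 by omega)
    have m1' := K.iter_strictMono j (show i' + 1 < i' + 1 + 1 by omega)
    have m2' := K.iter_strictMono j (show i' + 1 + 1 < i' + 1 + 1 + 1 by omega)
    rw [show i + 3 = i + 1 + 1 + 1 by ring] at hx
    by_cases c0 : x < s^[j] (i + 1) - s^[j] i
    · have := b0.2 x c0 0 (by omega)
      simpa using this
    · by_cases c1 : x < s^[j] (i + 1 + 1) - s^[j] i
      · have := b1.2 (x - (s^[j] (i + 1) - s^[j] i)) (by omega) 0 (by omega)
        simp only [add_zero] at this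
        rw [show s^[j] i + x = s^[j] (i + 1) + (x - (s^[j] (i + 1) - s^[j] i)) by omega,
          show s^[j] i' + x = s^[j] (i' + 1) + (x - (s^[j] (i + 1) - s^[j] i)) by omega]
        exact this
      · have := b2.2 (x - (s^[j] (i + 1 + 1) - s^[j] i)) (by omega) 0 (by omega)
        simp only [add_zero] at this
        rw [show s^[j] i + x = s^[j] (i + 1 + 1) + (x - (s^[j] (i + 1 + 1) - s^[j] i)) by omega,
          show s^[j] i' + x = s^[j] (i' + 1 + 1) + (x - (s^[j] (i + 1 + 1) - s^[j] i)) by omega]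
        exact this
  -- the choice
  have ch : ∀ w : {w // w ∈ Fs k n}, ∃ i t, s^[j] i + t < s^[j] (i + 1) ∧
      fw k n (s^[j] i + t) = w.1 := by
    rintro ⟨w, hw⟩
    obtain ⟨p, rfl⟩ := mem_Fs.1 hw
    obtain ⟨i, t, h1, h2⟩ := K.exists_block j p
    exact ⟨i, t, h1, by subst h2; rfl⟩
  choose fi ft h1 h2 using ch
  let f : {w // w ∈ Fs k n} → (Fin (N + 2) → Bool) × ℕ := fun w => (fw k (N + 2) (fi w), ft w)
  have inj : Function.Injective f := by
    intro w w' h
    simp only [f, Prod.mk.injEq] at h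
    obtain ⟨ha, hb⟩ := h
    have he := (fw_eq_iff K _ _ _).1 ha
    apply Subtype.ext
    rw [← h2 w, ← h2 w', ← hb]
    refine (fw_eq_iff K _ _ _).2 (fun t ht => ?_)
    rw [add_assoc, add_assoc]
    refine three _ _ he _ ?_
    have g1 := h1 w
    have g2 := hj1 (fi w + 1)
    rw [show fi w + 1 + 2 = fi w + 3 by ring] at g2
    omega
  have hsub : Finset.univ.image f ⊆ Fs k (N + 2) ×ˢ Finset.range (2 * 2 ^ (R + 2) * n) := by
    intro x hx
    obtain ⟨w, _, rfl⟩ := Finset.mem_image.1 hx
    refine Finset.mem_product.2 ⟨fw_mem _ _ _, Finset.mem_range.2 ?_⟩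
    have g1 := h1 w
    have g2 := hj2 (fi w)
    simp only [f]
    omega
  have hc := Finset.card_le_card hsub
  rw [Finset.card_image_of_injective _ inj, Finset.card_univ, Fintype.card_coe,
    Finset.card_product, Finset.card_range] at hc
  calc (Fs k n).card ≤ _ := hc
    _ = _ := by ring

end Pool.Agent.KolW
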