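import Pool.Agent.Kol.Count

/-!
# Expansions of infinite words, uniformly recurrent left special words
-/

namespace Pool.Agent.KolW

/-- every prefix of `y` occurs in `k` -/
def Sub (k y : ℕ → ℕ) : Prop := ∀ n, ∃ j, ∀ t < n, k (j + t) = y t

/-- every prefix of `y` occurs in `k` at a position of the parity of `e` -/
def SubP (k y : ℕ → ℕ) (e : ℕ) : Prop := ∀ n, ∃ j, j % 2 = e % 2 ∧ ∀ t < n, k (j + t) = y t

/-- uniformly recurrent -/
def UR (y : ℕ → ℕ) : Prop := ∀ n, ∃ R, ∀ j, ∃ m, j ≤ m ∧ m ≤ j + R ∧ ∀ t < n, y (m + t) = y t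

/-- all prefixes are left special factors of the word itself -/
def LSp (y : ℕ → ℕ) : Prop := ∀ n, ∃ i j, y i ≠ y j ∧ (∀ t < n, y (i + 1 + t) = y t) ∧
  ∀ t < n, y (j + 1 + t) = y t

/-- the words used for the lower bound -/
structure RM (k y : ℕ → ℕ) : Prop where
  mem : ∀ n, y n = 1 ∨ y n = 2
  sub : Sub k y
  ur : UR y
  ls : LSp y

lemma SubP.sub {k y : ℕ → ℕ} {e : ℕ} (h : SubP k y e) : Sub k y := fun n => by
  obtain ⟨j, _, hj⟩ := h n; exact ⟨j, hj⟩

lemma Sub.subP {k y : ℕ → ℕ} (h : Sub k y) : SubP k y 0 ∨ SubP k y 1 := by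
  by_contra hc
  unfold SubP at hc
  push Not at hc
  obtain ⟨⟨n0, h0⟩, ⟨n1, h1⟩⟩ := hc
  obtain ⟨j, hj⟩ := h (max n0 n1)
  have m0 := le_max_left n0 n1
  have m1 := le_max_right n0 n1
  rcases Nat.mod_two_eq_zero_or_one j with hp | hp
  · obtain ⟨t, ht, ht'⟩ := h0 j (by omega)
    exact ht' (hj t (by omega))
  · obtain ⟨t, ht, ht'⟩ := h1 j (by omega)
    exact ht' (hj t (by omega))

lemma UR.even {y : ℕ → ℕ} (h : UR y) (n : ℕ) :
    ∃ R, ∀ j, ∃ m, j ≤ m ∧ m ≤ j + R ∧ m % 2 = 0 ∧ ∀ t < n, y (m + t) = y t := by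
  by_cases hc : ∃ o, o % 2 = 1 ∧ ∀ t < n, y (o + t) = y t
  · obtain ⟨o, ho, ho'⟩ := hc
    obtain ⟨R, hR⟩ := h (o + n)
    refine ⟨R + o, fun j => ?_⟩
    obtain ⟨m, h1, h2, h3⟩ := hR j
    rcases Nat.mod_two_eq_zero_or_one m with hp | hp
    · exact ⟨m, h1, by omega, hp, fun t ht => h3 t (by omega)⟩
    · refine ⟨m + o, by omega, by omega, by omega, fun t ht => ?_⟩
      have := h3 (o + t) (by omega)
      rw [← add_assoc] at this
      rw [this, ho' t ht]
  · push Not at hc
    obtain ⟨R, hR⟩ := h n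
    refine ⟨R, fun j => ?_⟩
    obtain ⟨m, h1, h2, h3⟩ := hR j
    refine ⟨m, h1, h2, ?_, h3⟩
    by_contra hp
    obtain ⟨t, ht, ht'⟩ := hc m (by omega)
    exact ht' (h3 t ht)

lemma LSp.odd {y : ℕ → ℕ} (h : LSp y) (n : ℕ) :
    ∃ i j, i % 2 = 1 ∧ j % 2 = 1 ∧ y i ≠ y j ∧ (∀ t < n, y (i + 1 + t) = y t) ∧
      ∀ t < n, y (j + 1 + t) = y t := by
  by_cases hc : ∀ N, ∃ o, o % 2 = 1 ∧ ∀ t < N, y (o + t) = y t
  · have key : ∀ i, (∀ t < n, y (i + 1 + t) = y t) →
        ∃ i', i' % 2 = 1 ∧ y i' = y i ∧ ∀ t < n, y (i' + 1 + t) = y t := by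
      intro i hi
      rcases Nat.mod_two_eq_zero_or_one i with hp | hp
      · obtain ⟨o, ho, ho'⟩ := hc (i + 1 + n)
        refine ⟨o + i, by omega, ho' i (by omega), fun t ht => ?_⟩
        have := ho' (i + 1 + t) (by omega)
        rw [show o + i + 1 + t = o + (i + 1 + t) by ring, this, hi t ht]
      · exact ⟨i, hp, rfl, hi⟩
    obtain ⟨i, j, h1, h2, h3⟩ := h n
    obtain ⟨i', a1, a2, a3⟩ := key i h2
    obtain ⟨j', b1, b2, b3⟩ := key j h3
    exact ⟨i', j', a1, b1, by rw [a2, b2]; exact h1, a3, b3⟩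
  · push Not at hc
    obtain ⟨N, hN⟩ := hc
    obtain ⟨i, j, h1, h2, h3⟩ := h (max N n)
    have m0 := le_max_left N n
    have m1 := le_max_right N n
    refine ⟨i, j, ?_, ?_, h1, fun t ht => h2 t (by omega), fun t ht => h3 t (by omega)⟩
    · by_contra hp
      obtain ⟨t, ht, ht'⟩ := hN (i + 1) (by omega)
      exact ht' (h2 t (by omega))
    · by_contra hp
      obtain ⟨t, ht, ht'⟩ := hN (j + 1) (by omega)
      exact ht' (h3 t (by omega))

/-- the run starts of the expansion -/
def st (y : ℕ → ℕ) : ℕ → ℕ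
  | 0 => 1
  | i + 1 => st y i + y i

/-- the expansion: one letter `c (e + 1)`, then the runs with the lengths `y 0, y 1, …`,
the first of them of the letter `c e` -/
noncomputable def ex (e : ℕ) (y : ℕ → ℕ) (j : ℕ) : ℕ :=
  if j = 0 then c (e + 1) else c (e + sInf {i | j < st y (i + 1)})

lemma ex_zero (e : ℕ) (y : ℕ → ℕ) : ex e y 0 = c (e + 1) := by simp [ex]

section
variable {y : ℕ → ℕ} (hy : ∀ n, y n = 1 ∨ y n = 2)
include hy

lemma st_strictMono : StrictMono (st y) :=
  strictMono_nat_of_lt_succ (fun i => by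
    simp only [st]
    rcases hy i with h | h <;> omega)

lemma one_le_st (i : ℕ) : 1 ≤ st y i := by
  have := (st_strictMono hy).monotone (Nat.zero_le i)
  simpa [st] using this

lemma le_st (i : ℕ) : i + 1 ≤ st y i := by
  induction i with
  | zero => simp [st]
  | succ i ih => simp only [st]; rcases hy i with h | h <;> omega

lemma st_le (i : ℕ) : st y i ≤ 2 * i + 1 := by
  induction i with
  | zero => simp [st]
  | succ i ih => simp only [st]; rcases hy i with h | h <;> omega

lemma ex_run (e i j : ℕ) (h1 : st y i ≤ j) (h2 : j < st y (i + 1)) : ex e y j = c (e + i) := by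
  have h0 := one_le_st hy i
  unfold ex
  rw [if_neg (by omega)]
  congr 2
  apply le_antisymm
  · exact Nat.sInf_le h2
  · have hm := Nat.sInf_mem (s := {i | j < st y (i + 1)}) ⟨i, h2⟩
    simp only [Set.mem_setOf_eq] at hm
    by_contra hc
    push Not at hc
    have := (st_strictMono hy).monotone (show sInf {i | j < st y (i + 1)} + 1 ≤ i by omega)
    omega

lemma exists_st (j : ℕ) (hj : 1 ≤ j) : ∃ i, st y i ≤ j ∧ j < st y (i + 1) := by
  classical
  have hex : ∃ i, j < st y (i + 1) := ⟨j, by have := le_st hy (j + 1); omega⟩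
  refine ⟨Nat.find hex, ?_, Nat.find_spec hex⟩
  by_contra hc
  push Not at hc
  rcases Nat.eq_zero_or_pos (Nat.find hex) with h | h
  · rw [h] at hc; simp only [st] at hc; omega
  · obtain ⟨a, ha⟩ := Nat.exists_eq_succ_of_ne_zero h.ne'
    rw [ha] at hc
    exact Nat.find_min hex (m := a) (by omega) hc

lemma ex_mem (e j : ℕ) : ex e y j = 1 ∨ ex e y j = 2 := by
  rcases Nat.eq_zero_or_pos j with h | h
  · rw [h, ex_zero]; exact c_mem _
  · obtain ⟨i, h1, h2⟩ := exists_st hy j h
    rw [ex_run hy e i j h1 h2]; exact c_mem _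

/-- comparison of an expansion with a part of another expansion -/
lemma match_ex {a σ w : ℕ → ℕ} {e e' q n : ℕ} (hσ : ∀ i, σ (i + 1) = σ i + a i)
    (hw : ∀ i j, σ i ≤ j → j < σ (i + 1) → w j = c (e' + i)) (hq : 1 ≤ σ q)
    (hq' : w (σ q - 1) = c (e' + q + 1)) (hpar : (e' + q) % 2 = e % 2)
    (hm : ∀ t < n, a (q + t) = y t) : ∀ u < st y n, w (σ q - 1 + u) = ex e y u := by
  have hs : ∀ r ≤ n, σ (q + r) + 1 = σ q + st y r := by
    intro r
    induction r with
    | zero => intro _; simp [st]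
    | succ r ih =>
      intro hr
      have h1 := ih (by omega)
      have h2 := hσ (q + r)
      rw [hm r (by omega)] at h2
      simp only [st]
      rw [show q + (r + 1) = q + r + 1 by ring]
      omega
  intro u hu
  rcases Nat.eq_zero_or_pos u with h | h
  · rw [h, add_zero, hq', ex_zero]; exact c_eq (by omega)
  · obtain ⟨r, h1, h2⟩ := exists_st hy u h
    have hr : r < n := by
      by_contra hc
      have := (st_strictMono hy).monotone (show n ≤ r by omega)
      omega
    rw [ex_run hy e r u h1 h2]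
    have a1 := hs r (by omega)
    have a2 := hs (r + 1) (by omega)
    rw [hw (q + r) _ (by omega) (by rw [show q + r + 1 = q + (r + 1) by ring]; omega)]
    exact c_eq (by omega)

/-- an occurrence of a prefix of `y` at an even position gives an occurrence of a prefix of the
expansion -/
lemma ex_occ (e q n : ℕ) (hq : q % 2 = 0) (hm : ∀ t < n, y (q + t) = y t) :
    ∀ u < st y n, ex e y (st y q - 1 + u) = ex e y u := by
  refine match_ex hy (e := e) (e' := e) (σ := st y) (a := y) (fun i => rfl)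
    (fun i j h1 h2 => ex_run hy e i j h1 h2) (one_le_st hy q) ?_ (by omega) hm
  rcases Nat.eq_zero_or_pos q with h | h
  · rw [h]; simp [st, ex_zero]
  · obtain ⟨r, rfl⟩ : ∃ r, q = r + 1 := ⟨q - 1, by omega⟩
    rw [ex_run hy e r (st y (r + 1) - 1) (by simp only [st]; rcases hy r with h | h <;> omega)
      (by have := one_le_st hy (r + 1); omega)]
    exact c_eq (by omega)

/-- different data give different expansions -/
lemma ex_inj {y' : ℕ → ℕ} (hy' : ∀ n, y' n = 1 ∨ y' n = 2) {e e' n : ℕ}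
    (h : ∀ u < 2 * n + 1, ex e y u = ex e' y' u) :
    e % 2 = e' % 2 ∧ ∀ t < n, y t = y' t := by
  have he : e % 2 = e' % 2 := by
    have := h 0 (by omega)
    rw [ex_zero, ex_zero] at this
    have := c_inj this
    omega
  refine ⟨he, ?_⟩
  have hst : ∀ t, t ≤ n → (∀ t' < t, y t' = y' t') → st y t = st y' t := by
    intro t
    induction t with
    | zero => intro _ _; rfl
    | succ t ih =>
      intro h1 h2
      simp only [st]
      rw [ih (by omega) (fun t' ht' => h2 t' (by omega)), h2 t (by omega)]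
  intro t
  induction t using Nat.strong_induction_on with
  | _ t ih =>
    intro ht
    have h1 := hst t (by omega) (fun t' ht' => ih t' ht' (by omega))
    have h2 := st_le hy t
    have h3 := h (st y t + 1) (by omega)
    rcases hy t with a | a <;> rcases hy' t with b | b
    · rw [a, b]
    · exfalso
      have e1 : st y (t + 1) = st y t + 1 := by simp only [st]; rw [a]
      have e2 : st y' (t + 1) = st y' t + 2 := by simp only [st]; rw [b]
      rw [ex_run hy e (t + 1) (st y t + 1) (by omega)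
        (by have := (st_strictMono hy) (show t + 1 < t + 1 + 1 by omega); omega),
        ex_run hy' e' t (st y t + 1) (by omega) (by omega)] at h3
      have := c_inj h3
      omega
    · exfalso
      have e1 : st y (t + 1) = st y t + 2 := by simp only [st]; rw [a]
      have e2 : st y' (t + 1) = st y' t + 1 := by simp only [st]; rw [b]
      rw [ex_run hy e t (st y t + 1) (by omega) (by omega),
        ex_run hy' e' (t + 1) (st y t + 1) (by omega)
          (by have := (st_strictMono hy') (show t + 1 < t + 1 + 1 by omega); omega)] at h3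
      have := c_inj h3
      omega
    · rw [a, b]

lemma ex_ur (h : UR y) (e : ℕ) : UR (ex e y) := by
  intro n
  obtain ⟨R, hR⟩ := h.even n
  refine ⟨2 * R + 4, fun j => ?_⟩
  obtain ⟨i, h1, h2⟩ : ∃ i, j ≤ st y i ∧ st y i ≤ j + 2 := by
    rcases Nat.eq_zero_or_pos j with h | h
    · exact ⟨0, by simp [st, h], by simp [st]⟩
    · obtain ⟨i, a1, a2⟩ := exists_st hy j h
      refine ⟨i + 1, by omega, ?_⟩
      simp only [st]
      rcases hy i with h | h <;> omega
  obtain ⟨m, m1, m2, m3, m4⟩ := hR (i + 1)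
  have h3 := (st_strictMono hy) (show i < m by omega)
  have h4 : ∀ x, st y (i + x) ≤ st y i + 2 * x := by
    intro x
    induction x with
    | zero => simp
    | succ x ih =>
      rw [show i + (x + 1) = i + x + 1 by ring]; simp only [st]
      rcases hy (i + x) with h | h <;> omega
  have h5 := h4 (m - i)
  rw [show i + (m - i) = m by omega] at h5
  refine ⟨st y m - 1, by omega, by omega, fun t ht => ?_⟩
  exact ex_occ hy e m n m3 m4 t (by have := le_st hy n; omega)

lemma ex_ls (h : LSp y) (e : ℕ) : LSp (ex e y) := by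
  intro n
  obtain ⟨i, j, h1, h2, h3, h4, h5⟩ := h.odd n
  have key : ∀ i, i % 2 = 1 → (∀ t < n, y (i + 1 + t) = y t) →
      ∀ t < n, ex e y (st y (i + 1) - 2 + 1 + t) = ex e y t := by
    intro i hi hm t ht
    have := ex_occ hy e (i + 1) n (by omega) hm t (by have := le_st hy n; omega)
    have h6 := le_st hy (i + 1)
    rw [show st y (i + 1) - 2 + 1 + t = st y (i + 1) - 1 + t by omega]
    exact this
  have val : ∀ i, i % 2 = 1 → ex e y (st y (i + 1) - 2) = c (e + (y i - 1)) := by
    intro i hi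
    obtain ⟨r, rfl⟩ : ∃ r, i = r + 1 := ⟨i - 1, by omega⟩
    have h6 := le_st hy (r + 1)
    have h7 : st y (r + 1 + 1) = st y (r + 1) + y (r + 1) := rfl
    have h8 : st y (r + 1) = st y r + y r := rfl
    rcases hy (r + 1) with a | a
    · rw [ex_run hy e r _ (by rcases hy r with b | b <;> omega) (by omega), a]
      exact c_eq (by omega)
    · rw [ex_run hy e (r + 1) _ (by omega) (by omega), a]
      exact c_eq (by omega)
  refine ⟨st y (i + 1) - 2, st y (j + 1) - 2, ?_, key i h1 h4, key j h2 h5⟩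
  rw [val i h1, val j h2]
  intro hc
  have := c_inj hc
  rcases hy i with a | a <;> rcases hy j with b | b <;> rw [a, b] at this h3 <;> omega

end

lemma ex_sub {k s y : ℕ → ℕ} (K : Kol k s) (hy : ∀ n, y n = 1 ∨ y n = 2) (hu : UR y) {e : ℕ}
    (h : SubP k y e) : Sub k (ex e y) := by
  intro n
  obtain ⟨R, hR⟩ := hu.even n
  obtain ⟨m, m1, m2, m3, m4⟩ := hR 1
  obtain ⟨i, i1, i2⟩ := h (m + n)
  obtain ⟨r, hr⟩ : ∃ r, i + m = r + 1 := ⟨i + m - 1, by omega⟩
  refine ⟨s (i + m) - 1, fun t ht => ?_⟩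
  refine match_ex hy (a := k) (σ := s) (w := k) (e := e) (e' := 0) (q := i + m) (n := n)
    K.succ (fun i j h1 h2 => by rw [zero_add]; exact K.run i j h1 h2) ?_ ?_ (by omega) ?_ t
    (by have := le_st hy n; omega)
  · have := K.le_s (i + m); omega
  · have h1 := K.s_lt r
    rw [hr]
    rw [K.run r (s (r + 1) - 1) (by omega) (by omega)]
    exact c_eq (by omega)
  · intro t ht
    have := i2 (m + t) (by omega)
    rw [← add_assoc] at this
    rw [this, m4 t ht]

lemma RM.ex {k s y : ℕ → ℕ} (K : Kol k s) (h : RM k y) {e : ℕ} (he : SubP k y e) :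
    RM k (ex e y) :=
  ⟨ex_mem h.mem e, ex_sub K h.mem h.ur he, ex_ur h.mem h.ur e, ex_ls h.mem h.ls e⟩

end Pool.Agent.KolW
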