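import Pool.Agent.Kol.Freq

/-!
# Every factor occurs at both parities: all smooth words occur, and there are many factors
-/

namespace Pool.Agent.KolW

/-- every factor occurs at positions of both parities -/
def Free (k : ℕ → ℕ) : Prop :=
  ∀ n i, ∃ j, j % 2 ≠ i % 2 ∧ ∀ t < n, k (j + t) = k (i + t)

/-- recurrence with prescribed parity -/
lemma Free.exists_ge {k : ℕ → ℕ} (h : Free k) (n i e B : ℕ) :
    ∃ j, B ≤ j ∧ j % 2 = e % 2 ∧ ∀ t < n, k (j + t) = k (i + t) := by
  -- first: an occurrence beyond any bound
  have step : ∀ B i, ∃ j, B ≤ j ∧ ∀ t < n, k (j + t) = k (i + t) := by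
    intro B
    induction B with
    | zero => intro i; exact ⟨i, by omega, fun t _ => rfl⟩
    | succ B ih =>
      intro i
      obtain ⟨j, hj, hj'⟩ := ih i
      -- the prefix of length `j + n` occurs at an odd position
      obtain ⟨m, hm, hm'⟩ := h (j + n) 0
      have hm0 : 1 ≤ m := by
        by_contra hc
        exact hm (by rw [show m = 0 by omega])
      refine ⟨m + j, by omega, fun t ht => ?_⟩
      have := hm' (j + t) (by omega)
      rw [zero_add] at this
      rw [add_assoc, this, hj' t ht]
  obtain ⟨j, hj, hj'⟩ := step B i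
  by_cases hp : j % 2 = e % 2
  · exact ⟨j, hj, hp, hj'⟩
  · obtain ⟨m, hm, hm'⟩ := h (j + n) 0
    refine ⟨m + j, by omega, by omega, fun t ht => ?_⟩
    have := hm' (j + t) (by omega)
    rw [zero_add] at this
    rw [add_assoc, this, hj' t ht]

namespace Kol

variable {k s : ℕ → ℕ} (K : Kol k s)
include K

/-- runs with the same lengths -/
lemma s_eq_of_win {i i' : ℕ} {n : ℕ} (h : ∀ t < n, k (i + t) = k (i' + t)) :
    ∀ m ≤ n, s (i + m) - s i = s (i' + m) - s i' := by
  intro m hm
  have h1 := K.sum_win i m
  have h2 := K.sum_win i' m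
  have h3 : win k i m = win k i' m := (win_eq_iff k i i' m).2 (fun t ht => h t (by omega))
  rw [h1, h2, h3]; omega

/-- same run lengths, opposite parity: the integrals are complementary;
same parity: the integrals agree -/
lemma transfer {i i' n : ℕ} (h : ∀ t < n, k (i + t) = k (i' + t)) :
    ∀ t < s (i + n) - s i, ∃ j < n, k (s i + t) = c (i + j) ∧ k (s i' + t) = c (i' + j) := by
  intro t ht
  obtain ⟨r, o, ho, hr⟩ := K.exists_run (s i + t)
  have hri : i ≤ r := by
    by_contra hc
    have h1 := K.strictMono.monotone (show r + 1 ≤ i by omega)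
    have := K.succ r
    omega
  have hrn : r < i + n := by
    by_contra hc
    have h1 := K.strictMono.monotone (show i + n ≤ r by omega)
    omega
  obtain ⟨j, rfl⟩ : ∃ j, r = i + j := ⟨r - i, by omega⟩
  refine ⟨j, by omega, ?_, ?_⟩
  · rw [hr]; exact K.k_run _ _ ho
  · have h1 := K.s_eq_of_win h j (by omega)
    have h2 := K.strictMono.monotone (show i ≤ i + j by omega)
    have h3 := K.strictMono.monotone (show i' ≤ i' + j by omega)
    have h4 : s i' + t = s (i' + j) + o := by omega
    rw [h4]
    exact K.k_run _ _ (by rw [← h j (by omega)]; exact ho)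

lemma transfer_same {i i' n : ℕ} (hp : i % 2 = i' % 2) (h : ∀ t < n, k (i + t) = k (i' + t)) :
    ∀ t < s (i + n) - s i, k (s i + t) = k (s i' + t) := by
  intro t ht
  obtain ⟨j, _, h1, h2⟩ := K.transfer h t ht
  rw [h1, h2]; exact c_eq (by omega)

lemma transfer_opp {i i' n : ℕ} (hp : i % 2 ≠ i' % 2) (h : ∀ t < n, k (i + t) = k (i' + t)) :
    ∀ t < s (i + n) - s i, k (s i' + t) = 3 - k (s i + t) := by
  intro t ht
  obtain ⟨j, _, h1, h2⟩ := K.transfer h t ht
  rw [h1, h2, ← c_succ]; exact c_eq (by omega)

/-- closure under complement -/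
lemma compl (hF : Free k) (n i : ℕ) : ∃ j, ∀ t < n, k (j + t) = 3 - k (i + t) := by
  obtain ⟨r, o, ho, hr⟩ := K.exists_run i
  obtain ⟨r', hp, hw⟩ := hF (n + 2) r
  refine ⟨s r' + o, fun t ht => ?_⟩
  have h1 := K.transfer_opp (i := r) (i' := r') (n := n + 2) (fun e => hp e.symm)
    (fun t ht => (hw t ht).symm) (o + t)
    (by have := K.add_le r (n + 2); have := K.le_two r; omega)
  rw [hr, add_assoc, add_assoc]
  exact h1

/-- decoding the run lengths -/
lemma decode {i i' m : ℕ} (hp : i % 2 = i' % 2)
    (h : ∀ t < m + 5 * ((m + 8) / 9) + 1, k (s i + t) = k (s i' + t)) :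
    ∀ j < m, k (i + j) = k (i' + j) := by
  intro j
  induction j using Nat.strong_induction_on with
  | _ j ih =>
    intro hj
    have h1 := K.s_eq_of_win (n := j) (i := i) (i' := i') (fun t ht => ih t ht (by omega)) j le_rfl
    have e1 := K.strictMono.monotone (show i ≤ i + j by omega)
    have e2 := K.strictMono.monotone (show i' ≤ i' + j by omega)
    have h2 := K.upper i m
    have h3 := K.strictMono.monotone (show i + j + 1 ≤ i + m by omega)
    have h4 := K.succ (i + j)
    have h2' := K.upper i' m
    have h3' := K.strictMono.monotone (show i' + j + 1 ≤ i' + m by omega)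
    have h4' := K.succ (i' + j)
    -- position of the letter following the first letter of run `i + j`
    have key : k (s (i + j) + 1) = k (s (i' + j) + 1) := by
      have := h (s (i + j) - s i + 1) (by have := K.one_le (i + j); omega)
      rw [show s i + (s (i + j) - s i + 1) = s (i + j) + 1 by omega,
        show s i' + (s (i + j) - s i + 1) = s (i' + j) + 1 by omega] at this
      exact this
    have l1 : k (i + j) = 1 → k (s (i + j) + 1) = c (i + j + 1) := by
      intro e; rw [← K.k_s (i + j + 1), h4, e]
    have l2 : k (i + j) = 2 → k (s (i + j) + 1) = c (i + j) := by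
      intro e; exact K.k_run _ 1 (by omega)
    have l1' : k (i' + j) = 1 → k (s (i' + j) + 1) = c (i' + j + 1) := by
      intro e; rw [← K.k_s (i' + j + 1), h4', e]
    have l2' : k (i' + j) = 2 → k (s (i' + j) + 1) = c (i' + j) := by
      intro e; exact K.k_run _ 1 (by omega)
    have p1 : c (i' + j) = c (i + j) := c_eq (by omega)
    have p2 : c (i' + j + 1) = c (i + j + 1) := c_eq (by omega)
    have p3 := c_succ_ne (i + j)
    rcases K.mem (i + j) with a | a <;> rcases K.mem (i' + j) with b | b
    · rw [a, b]
    · exfalso; rw [l1 a, l2' b, p1] at key; exact p3 key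
    · exfalso; rw [l2 a, l1' b, p2] at key; exact p3 key.symm
    · rw [a, b]

end Kol

end Pool.Agent.KolW
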