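import Pool.Agent.Kol.Basic

/-!
# Nine consecutive letters of the Kolakoski word contain four or five letters `2`
-/

namespace Pool.Agent.KolW

/-- a list of words of length nine, closed under integration -/
def A9 : List (List ℕ) :=
  [[1, 1, 2, 1, 1, 2, 1, 2, 2],
   [1, 1, 2, 1, 1, 2, 2, 1, 2],
   [1, 1, 2, 1, 2, 2, 1, 1, 2],
   [1, 1, 2, 1, 2, 2, 1, 2, 1],
   [1, 1, 2, 1, 2, 2, 1, 2, 2],
   [1, 1, 2, 2, 1, 2, 1, 1, 2],
   [1, 1, 2, 2, 1, 2, 2, 1, 1],
   [1, 1, 2, 2, 1, 2, 2, 1, 2],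
   [1, 2, 1, 1, 2, 1, 1, 2, 2],
   [1, 2, 1, 1, 2, 1, 2, 2, 1],
   [1, 2, 1, 1, 2, 2, 1, 2, 1],
   [1, 2, 1, 1, 2, 2, 1, 2, 2],
   [1, 2, 1, 2, 2, 1, 1, 2, 1],
   [1, 2, 1, 2, 2, 1, 2, 1, 1],
   [1, 2, 1, 2, 2, 1, 2, 2, 1],
   [1, 2, 2, 1, 1, 2, 1, 1, 2],
   [1, 2, 2, 1, 1, 2, 1, 2, 2],
   [1, 2, 2, 1, 2, 1, 1, 2, 1],
   [1, 2, 2, 1, 2, 1, 1, 2, 2],
   [1, 2, 2, 1, 2, 2, 1, 1, 2],
   [1, 2, 2, 1, 2, 2, 1, 2, 1],
   [2, 1, 1, 2, 1, 1, 2, 1, 2],
   [2, 1, 1, 2, 1, 1, 2, 2, 1],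
   [2, 1, 1, 2, 1, 2, 2, 1, 1],
   [2, 1, 1, 2, 1, 2, 2, 1, 2],
   [2, 1, 1, 2, 2, 1, 2, 1, 1],
   [2, 1, 1, 2, 2, 1, 2, 2, 1],
   [2, 1, 2, 1, 1, 2, 1, 1, 2],
   [2, 1, 2, 1, 1, 2, 1, 2, 2],
   [2, 1, 2, 1, 1, 2, 2, 1, 2],
   [2, 1, 2, 2, 1, 1, 2, 1, 1],
   [2, 1, 2, 2, 1, 1, 2, 1, 2],
   [2, 1, 2, 2, 1, 2, 1, 1, 2],
   [2, 1, 2, 2, 1, 2, 2, 1, 1],
   [2, 2, 1, 1, 2, 1, 1, 2, 1],
   [2, 2, 1, 1, 2, 1, 1, 2, 2],
   [2, 2, 1, 1, 2, 1, 2, 2, 1],
   [2, 2, 1, 2, 1, 1, 2, 1, 1],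
   [2, 2, 1, 2, 1, 1, 2, 1, 2],
   [2, 2, 1, 2, 1, 1, 2, 2, 1],
   [2, 2, 1, 2, 2, 1, 1, 2, 1],
   [2, 2, 1, 2, 2, 1, 2, 1, 1]]

lemma A9_step : ∀ v ∈ A9, ∀ e ∈ [0, 1], ∀ t ∈ [0, 1], t < v.headD 0 →
    ((integ e v).drop t).take 9 ∈ A9 := by decide

lemma A9_sum : ∀ v ∈ A9, 13 ≤ v.sum ∧ v.sum ≤ 14 ∧ 4 ≤ (v.take 3).sum := by decide

lemma win_drop_take (k : ℕ → ℕ) (i N t n : ℕ) (h : t + n ≤ N) :
    ((win k i N).drop t).take n = win k (i + t) n := by
  obtain ⟨m, rfl⟩ : ∃ m, N = t + (n + m) := ⟨N - t - n, by omega⟩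
  rw [win_add, List.drop_left' (win_length _ _ _), win_add, List.take_left' (win_length _ _ _)]

namespace Kol

variable {k s : ℕ → ℕ} (K : Kol k s)
include K

lemma win_zero_nine : win k 0 9 = [2, 2, 1, 1, 2, 1, 2, 2, 1] := by
  have step : ∀ n, win k 0 (s n) = integ 0 (win k 0 n) := by
    intro n
    have := K.integ_win 0 n
    rw [K.s0] at this
    simpa using this.symm
  have s1 : s 1 = 2 := by have := K.succ 0; rw [K.s0, K.k0] at this; simpa using this
  have w2 : win k 0 2 = [2, 2] := by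
    have := step 1
    rw [s1] at this
    rw [this]
    simp [win, K.k0, integ, c]
  have sum0 : ∀ n, s n = (win k 0 n).sum := by
    intro n; have := K.sum_win 0 n; rw [K.s0] at this; simpa using this
  have s2 : s 2 = 4 := by rw [sum0, w2]; rfl
  have w4 : win k 0 4 = [2, 2, 1, 1] := by
    have := step 2
    rw [s2, w2] at this
    rw [this]; rfl
  have s4 : s 4 = 6 := by rw [sum0, w4]; rfl
  have w6 : win k 0 6 = [2, 2, 1, 1, 2, 1] := by
    have := step 4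
    rw [s4, w4] at this
    rw [this]; rfl
  have s6 : s 6 = 9 := by rw [sum0, w6]; rfl
  have := step 6
  rw [s6, w6] at this
  rw [this]; rfl

lemma win_nine (i : ℕ) : win k i 9 ∈ A9 := by
  induction i using Nat.strong_induction_on with
  | _ i ih =>
    obtain ⟨r, t, ht, hi⟩ := K.exists_run i
    rcases Nat.eq_zero_or_pos i with h0 | h0
    · rw [h0, K.win_zero_nine]; decide
    · have hr : r < i := by
        rcases Nat.eq_zero_or_pos r with hr | hr
        · omega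
        · have := K.succ_le_s hr; omega
      have h1 := ih r hr
      have h2 := (A9_sum _ h1).1
      have h3 := K.sum_win r 9
      have h4 := K.integ_win' r 9 (e := r % 2) (by omega)
      have h5 := A9_step _ h1 (r % 2)
        (by rcases Nat.mod_two_eq_zero_or_one r with h | h <;> rw [h] <;> simp) t
        (by have := K.le_two r; have : t = 0 ∨ t = 1 := by omega
            rcases this with h | h <;> rw [h] <;> simp) (by simpa [win] using ht)
      rw [h4, win_drop_take k _ _ _ _ (by have := K.le_two r; omega), ← hi] at h5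
      exact h5

lemma nine_lower (i : ℕ) : s i + 13 ≤ s (i + 9) := by
  have := (A9_sum _ (K.win_nine i)).1; rw [K.sum_win i 9]; omega

lemma nine_upper (i : ℕ) : s (i + 9) ≤ s i + 14 := by
  have := (A9_sum _ (K.win_nine i)).2.1; rw [K.sum_win i 9]; omega

lemma three_lower (i : ℕ) : s i + 4 ≤ s (i + 3) := by
  have h := (A9_sum _ (K.win_nine i)).2.2
  have h2 := win_drop_take k i 9 0 3 (by norm_num)
  simp only [List.drop_zero, add_zero] at h2
  rw [h2] at h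
  rw [K.sum_win i 3]; omega

lemma nine_mul_upper (i q : ℕ) : s (i + 9 * q) ≤ s i + 14 * q := by
  induction q with
  | zero => simp
  | succ q ih =>
    have := K.nine_upper (i + 9 * q)
    rw [show i + 9 * (q + 1) = i + 9 * q + 9 by ring]; omega

lemma nine_mul_lower (i q : ℕ) : s i + 13 * q ≤ s (i + 9 * q) := by
  induction q with
  | zero => simp
  | succ q ih =>
    have := K.nine_lower (i + 9 * q)
    rw [show i + 9 * (q + 1) = i + 9 * q + 9 by ring]; omega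

/-- upper bound for the length of an integral -/
lemma upper (i n : ℕ) : s (i + n) ≤ s i + (n + 5 * ((n + 8) / 9)) := by
  have h1 := K.nine_mul_upper i ((n + 8) / 9)
  have h2 := K.add_le (i + n) (9 * ((n + 8) / 9) - n)
  have h3 : i + n + (9 * ((n + 8) / 9) - n) = i + 9 * ((n + 8) / 9) := by omega
  rw [h3] at h2
  omega

/-- lower bound for the length of an integral -/
lemma lower (i n : ℕ) : s i + (n + 4 * (n / 9)) ≤ s (i + n) := by
  have h1 := K.nine_mul_lower i (n / 9)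
  have h2 := K.add_le (i + 9 * (n / 9)) (n - 9 * (n / 9))
  have h3 : i + 9 * (n / 9) + (n - 9 * (n / 9)) = i + n := by omega
  rw [h3] at h2
  omega

lemma lower_three (i n : ℕ) (hn : 3 ≤ n) : s i + (n + 1) ≤ s (i + n) := by
  have h1 := K.three_lower i
  have h2 := K.add_le (i + 3) (n - 3)
  rw [show i + 3 + (n - 3) = i + n by omega] at h2
  omega

lemma two_two (i : ℕ) : s (s i) + 3 ≤ s (s (i + 2)) := by
  have h1 := K.succ i
  have h2 : s (i + 2) = s (i + 1) + k (i + 1) := K.succ (i + 1)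
  rcases K.mem i with h | h
  · rcases K.mem (i + 1) with h' | h'
    · -- `1 1`
      have h3 : s (i + 1) = s i + 1 := by omega
      have h4 : s (i + 2) = s i + 2 := by omega
      have h5 := K.succ (s i)
      have h6 := K.succ (s i + 1)
      have h7 := K.k_s i
      have h8 := K.k_s (i + 1)
      rw [h3] at h8
      rw [c_succ] at h8
      rw [h4, show s i + 2 = s i + 1 + 1 by ring, h6, h5, h7, h8]
      rcases c_mem i with h9 | h9 <;> omega
    · have h3 : s (i + 2) = s i + 3 := by omega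
      rw [h3]; have := K.add_le (s i) 3; omega
  · have h3 : s i + 3 ≤ s (i + 2) := by have := K.one_le (i + 1); omega
    have h4 := K.add_le (s i) 3
    have := K.strictMono.monotone h3
    omega

end Kol

end Pool.Agent.KolW
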