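import Pool.Agent.Kol.MinSet

/-!
# If the parity is not determined by windows: at least about `n log n` factors
-/

namespace Pool.Agent.KolW

/-- the prefix of `y` as a function to the booleans -/
def pw (y : ℕ → ℕ) (n : ℕ) : Fin n → Bool := fun t => decide (y t = 2)

lemma pw_eq_iff {y z : ℕ → ℕ} (hy : ∀ n, y n = 1 ∨ y n = 2) (hz : ∀ n, z n = 1 ∨ z n = 2)
    (n : ℕ) : pw y n = pw z n ↔ ∀ t < n, y t = z t := by
  unfold pw
  constructor
  · intro h t ht
    have := congrFun h ⟨t, ht⟩
    simp only [decide_eq_decide] at this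
    rcases hy t with a | a <;> rcases hz t with b | b <;> rw [a, b] at this ⊢ <;> simp at this
  · intro h
    funext t
    simp only [decide_eq_decide]
    rw [h t t.2]

open Classical in
/-- the prefixes of length `n` of the words of the class `RM` -/
noncomputable def Ps (k : ℕ → ℕ) (n : ℕ) : Finset (Fin n → Bool) :=
  Finset.univ.filter (fun w => ∃ y, RM k y ∧ pw y n = w)

lemma mem_Ps {k : ℕ → ℕ} {n : ℕ} {w : Fin n → Bool} : w ∈ Ps k n ↔ ∃ y, RM k y ∧ pw y n = w := by
  simp [Ps]

lemma Ps_mono (k : ℕ → ℕ) {m n : ℕ} (h : m ≤ n) : (Ps k m).card ≤ (Ps k n).card := by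
  have : (Ps k n).image (fun w (t : Fin m) => w ⟨t, by omega⟩) = Ps k m := by
    ext w
    simp only [Finset.mem_image, mem_Ps]
    constructor
    · rintro ⟨_, ⟨y, hy, rfl⟩, rfl⟩
      exact ⟨y, hy, rfl⟩
    · rintro ⟨y, hy, rfl⟩
      exact ⟨pw y n, ⟨y, hy, rfl⟩, rfl⟩
  rw [← this]
  exact Finset.card_image_le

/-- one more prefix at the double length -/
lemma Ps_step {k s : ℕ → ℕ} (K : Kol k s) (h : ∀ N, ¬ Det k N) (n : ℕ) :
    (Ps k n).card + 1 ≤ (Ps k (2 * n + 1)).card := by
  classical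
  obtain ⟨y0, h0, h00, h01⟩ := exists_both K h
  have hch : ∀ w : {w // w ∈ Ps k n}, ∃ y e, RM k y ∧ pw y n = w.1 ∧ SubP k y e := by
    rintro ⟨w, hw⟩
    obtain ⟨y, hy, rfl⟩ := mem_Ps.1 hw
    rcases hy.sub.subP with h | h
    · exact ⟨y, 0, hy, rfl, h⟩
    · exact ⟨y, 1, hy, rfl, h⟩
  choose Y E hY hYw hE using hch
  set w0 : {w // w ∈ Ps k n} := ⟨pw y0 n, mem_Ps.2 ⟨y0, h0, rfl⟩⟩ with hw0
  have hE0 : SubP k y0 (E w0 + 1) := by
    intro m
    rcases Nat.mod_two_eq_zero_or_one (E w0 + 1) with hp | hp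
    · obtain ⟨j, hj, hj'⟩ := h00 m; exact ⟨j, by omega, hj'⟩
    · obtain ⟨j, hj, hj'⟩ := h01 m; exact ⟨j, by omega, hj'⟩
  let f : Option {w // w ∈ Ps k n} → (Fin (2 * n + 1) → Bool) := fun x => match x with
    | some w => pw (ex (E w) (Y w)) (2 * n + 1)
    | none => pw (ex (E w0 + 1) y0) (2 * n + 1)
  have hinj : Function.Injective f := by
    rintro (_ | w) (_ | w') hf
    · rfl
    · exfalso
      simp only [f] at hf
      have := ex_inj h0.mem (hY w').mem
        ((pw_eq_iff (ex_mem h0.mem _) (ex_mem (hY w').mem _) _).1 hf)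
      have h1 : w0 = w' := by
        apply Subtype.ext
        rw [hw0, ← hYw w']
        exact (pw_eq_iff h0.mem (hY w').mem n).2 this.2
      rw [← h1] at this
      omega
    · exfalso
      simp only [f] at hf
      have := ex_inj h0.mem (hY w).mem
        ((pw_eq_iff (ex_mem h0.mem _) (ex_mem (hY w).mem _) _).1 hf.symm)
      have h1 : w0 = w := by
        apply Subtype.ext
        rw [hw0, ← hYw w]
        exact (pw_eq_iff h0.mem (hY w).mem n).2 this.2
      rw [← h1] at this
      omega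
    · simp only [f] at hf
      have := ex_inj (hY w).mem (hY w').mem
        ((pw_eq_iff (ex_mem (hY w).mem _) (ex_mem (hY w').mem _) _).1 hf)
      congr 1
      apply Subtype.ext
      rw [← hYw w, ← hYw w']
      exact (pw_eq_iff (hY w).mem (hY w').mem n).2 this.2
  have hsub : Finset.univ.image f ⊆ Ps k (2 * n + 1) := by
    intro x hx
    obtain ⟨w, _, rfl⟩ := Finset.mem_image.1 hx
    rcases w with _ | w
    · exact mem_Ps.2 ⟨_, h0.ex K hE0, rfl⟩
    · exact mem_Ps.2 ⟨_, (hY w).ex K (hE w), rfl⟩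
  have hc := Finset.card_le_card hsub
  rw [Finset.card_image_of_injective _ hinj, Finset.card_univ, Fintype.card_option,
    Fintype.card_coe] at hc
  exact hc

lemma Ps_lower {k s : ℕ → ℕ} (K : Kol k s) (h : ∀ N, ¬ Det k N) (n : ℕ) :
    1 + Nat.log 2 (n + 1) ≤ (Ps k n).card := by
  induction n using Nat.strong_induction_on with
  | _ n ih =>
    rcases Nat.eq_zero_or_pos n with h0 | h0
    · subst h0
      obtain ⟨y0, h0, _, _⟩ := exists_both K h
      have : 0 < (Ps k 0).card := Finset.card_pos.2 ⟨pw y0 0, mem_Ps.2 ⟨y0, h0, rfl⟩⟩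
      simp only [zero_add, Nat.log_one_right, add_zero]
      omega
    · have h1 := ih ((n - 1) / 2) (by omega)
      have h2 := Ps_step K h ((n - 1) / 2)
      have h3 := Ps_mono k (show 2 * ((n - 1) / 2) + 1 ≤ n by omega)
      have h4 : Nat.log 2 (n + 1) = Nat.log 2 ((n - 1) / 2 + 1) + 1 := by
        rw [Nat.log_of_one_lt_of_le (by norm_num) (by omega)]
        congr 2
        omega
      omega

/-- the prefixes of the words of the class `RM` are left special in `k` -/
lemma left_special {k s y : ℕ → ℕ} (K : Kol k s) (h : RM k y) (n : ℕ) :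
    ∃ p q, k p = 1 ∧ k q = 2 ∧ (∀ t < n, k (p + 1 + t) = y t) ∧ ∀ t < n, k (q + 1 + t) = y t := by
  obtain ⟨i, j, h1, h2, h3⟩ := h.ls n
  have key : ∀ i, (∀ t < n, y (i + 1 + t) = y t) →
      ∃ p, k p = y i ∧ ∀ t < n, k (p + 1 + t) = y t := by
    intro i hi
    obtain ⟨p, hp⟩ := h.sub (i + 1 + n)
    refine ⟨p + i, hp i (by omega), fun t ht => ?_⟩
    have := hp (i + 1 + t) (by omega)
    rw [show p + i + 1 + t = p + (i + 1 + t) by ring, this, hi t ht]
  obtain ⟨p, p1, p2⟩ := key i h2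
  obtain ⟨q, q1, q2⟩ := key j h3
  rcases h.mem i with a | a <;> rcases h.mem j with b | b
  · exact absurd (a.trans b.symm) h1
  · exact ⟨p, q, by rw [p1, a], by rw [q1, b], p2, q2⟩
  · exact ⟨q, p, by rw [q1, b], by rw [p1, a], q2, p2⟩
  · exact absurd (a.trans b.symm) h1

/-- the increments of the complexity -/
lemma card_succ {k s : ℕ → ℕ} (K : Kol k s) (n : ℕ) :
    (Fs k n).card + (Ps k n).card ≤ (Fs k (n + 1)).card + 1 := by
  classical
  -- the tail
  let g : (Fin (n + 1) → Bool) → (Fin n → Bool) := fun w t => w t.succ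
  have hgw : ∀ i, g (fw k (n + 1) i) = fw k n (i + 1) := by
    intro i
    funext t
    have e : i + ((t.succ : Fin (n + 1)) : ℕ) = i + 1 + t := by
      rw [Fin.val_succ]; ring
    simp only [g, fw, decide_eq_decide]
    rw [e]
  have hg : ∀ w ∈ Fs k (n + 1), g w ∈ Fs k n := by
    intro w hw
    obtain ⟨i, rfl⟩ := mem_Fs.1 hw
    refine mem_Fs.2 ⟨i + 1, ?_⟩
    exact (hgw i).symm
  rw [Finset.card_eq_sum_card_fiberwise hg]
  have hP : Ps k n ⊆ Fs k n := by
    intro w hw
    obtain ⟨y, hy, rfl⟩ := mem_Ps.1 hw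
    obtain ⟨p, _, _, _, hp, _⟩ := left_special K hy n
    refine mem_Fs.2 ⟨p + 1, ?_⟩
    funext t
    simp only [fw, pw]
    rw [hp t t.2]
  have hfib : ∀ w ∈ Fs k n, (1 + if w ∈ Ps k n then 1 else 0) ≤
      ({x ∈ Fs k (n + 1) | g x = w}).card + if w = fw k n 0 then 1 else 0 := by
    intro w hw
    by_cases hw1 : w ∈ Ps k n
    · rw [if_pos hw1]
      obtain ⟨y, hy, rfl⟩ := mem_Ps.1 hw1
      obtain ⟨p, q, hp, hq, hp', hq'⟩ := left_special K hy n
      have e1 : fw k n (p + 1) = pw y n := by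
        funext t; simp only [fw, pw]; rw [hp' t t.2]
      have e2 : fw k n (q + 1) = pw y n := by
        funext t; simp only [fw, pw]; rw [hq' t t.2]
      have : ({fw k (n + 1) p, fw k (n + 1) q} : Finset (Fin (n + 1) → Bool)) ⊆
          {x ∈ Fs k (n + 1) | g x = pw y n} := by
        intro x hx
        rw [Finset.mem_insert, Finset.mem_singleton] at hx
        rw [Finset.mem_filter]
        rcases hx with rfl | rfl
        · exact ⟨fw_mem _ _ _, by rw [hgw, e1]⟩
        · exact ⟨fw_mem _ _ _, by rw [hgw, e2]⟩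
      have hc := Finset.card_le_card this
      rw [Finset.card_pair] at hc
      · omega
      · intro hc
        have := congrFun hc 0
        simp only [fw, Fin.val_zero, add_zero] at this
        rw [hp, hq] at this
        simp at this
    · rw [if_neg hw1]
      by_cases hw2 : w = fw k n 0
      · rw [if_pos hw2]; omega
      · obtain ⟨i, rfl⟩ := mem_Fs.1 hw
        have hi : i ≠ 0 := by rintro rfl; exact hw2 rfl
        obtain ⟨j, rfl⟩ : ∃ j, i = j + 1 := ⟨i - 1, by omega⟩
        have : 0 < ({x ∈ Fs k (n + 1) | g x = fw k n (j + 1)}).card := by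
          refine Finset.card_pos.2 ⟨fw k (n + 1) j, ?_⟩
          rw [Finset.mem_filter]
          exact ⟨fw_mem _ _ _, hgw j⟩
        omega
  have hsum := Finset.sum_le_sum hfib
  rw [Finset.sum_add_distrib, Finset.sum_add_distrib] at hsum
  have s1 : ∑ w ∈ Fs k n, (1 : ℕ) = (Fs k n).card := by simp
  have s2 : ∑ w ∈ Fs k n, (if w ∈ Ps k n then 1 else 0) = (Ps k n).card := by
    rw [Finset.sum_ite_mem, Finset.inter_eq_right.2 hP]; simp
  have s3 : ∑ w ∈ Fs k n, (if w = fw k n 0 then 1 else 0) ≤ 1 := by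
    rw [Finset.sum_ite_eq']
    split <;> simp
  omega

/-- the lower bound: at least about `n log n` factors of length `n` -/
theorem lower_log {k s : ℕ → ℕ} (K : Kol k s) (h : ∀ N, ¬ Det k N) (n : ℕ) :
    1 + ∑ i ∈ Finset.range n, Nat.log 2 (i + 1) ≤ (Fs k n).card := by
  induction n with
  | zero => simpa using card_pos k 0
  | succ n ih =>
    rw [Finset.sum_range_succ]
    have h1 := card_succ K n
    have h2 := Ps_lower K h n
    omega

end Pool.Agent.KolW
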