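import Pool.Agent.Kol.Aper
import Pool.Agent.Kol.Det

/-!
# If the parity is not determined by windows: a uniformly recurrent left special word all of whose
prefixes occur at both parities
-/

namespace Pool.Agent.KolW

open Set

/-- the shift -/
def Tm (y : ℕ → ℕ) : ℕ → ℕ := fun n => y (n + 1)

lemma Tm_iter (j : ℕ) (y : ℕ → ℕ) (n : ℕ) : (Tm^[j] y) n = y (j + n) := by
  induction j generalizing y n with
  | zero => simp
  | succ j ih =>
    rw [Function.iterate_succ_apply, ih]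
    simp only [Tm]
    congr 1; ring

/-- the words over `{1, 2}` -/
def Om : Set (ℕ → ℕ) := {y | ∀ n, y n = 1 ∨ y n = 2}

lemma Om_compact : IsCompact Om := by
  have h : Om = Set.pi univ (fun _ : ℕ => ({1, 2} : Set ℕ)) := by
    ext y; simp [Om, Set.mem_pi]
  rw [h]
  exact isCompact_univ_pi (fun _ => (Set.toFinite _).isCompact)

/-- a set which depends on finitely many coordinates is closed -/
lemma closed_of_prefix (n : ℕ) (S : Set (ℕ → ℕ))
    (hS : ∀ x y : ℕ → ℕ, (∀ t < n, x t = y t) → x ∈ S → y ∈ S) : IsClosed S := by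
  rw [← isOpen_compl_iff, isOpen_iff_mem_nhds]
  intro y hy
  have hopen : IsOpen {x : ℕ → ℕ | ∀ t ∈ Finset.range n, x t = y t} := by
    have : {x : ℕ → ℕ | ∀ t ∈ Finset.range n, x t = y t} =
        ⋂ t ∈ Finset.range n, (fun x : ℕ → ℕ => x t) ⁻¹' {y t} := by
      ext x; simp
    rw [this]
    exact isOpen_biInter_finset (fun t _ => (isOpen_discrete _).preimage (continuous_apply t))
  refine Filter.mem_of_superset (hopen.mem_nhds (fun t _ => rfl)) (fun x hx hxS => hy ?_)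
  exact hS x y (fun t ht => hx t (Finset.mem_range.2 ht)) hxS

/-- the words whose prefixes occur at both parities -/
def Bo (k : ℕ → ℕ) : Set (ℕ → ℕ) := {y | (∀ n, y n = 1 ∨ y n = 2) ∧ SubP k y 0 ∧ SubP k y 1}

lemma Bo_shift {k y : ℕ → ℕ} (h : y ∈ Bo k) : Tm y ∈ Bo k := by
  obtain ⟨h1, h2, h3⟩ := h
  refine ⟨fun n => h1 _, fun n => ?_, fun n => ?_⟩
  · obtain ⟨j, hj, hj'⟩ := h3 (n + 1)
    refine ⟨j + 1, by omega, fun t ht => ?_⟩
    have := hj' (t + 1) (by omega)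
    simp only [Tm]
    rw [show j + 1 + t = j + (t + 1) by ring, this]
  · obtain ⟨j, hj, hj'⟩ := h2 (n + 1)
    refine ⟨j + 1, by omega, fun t ht => ?_⟩
    have := hj' (t + 1) (by omega)
    simp only [Tm]
    rw [show j + 1 + t = j + (t + 1) by ring, this]

/-- the words in `Om` with a prefix which occurs at both parities -/
def Bn (k : ℕ → ℕ) (n : ℕ) : Set (ℕ → ℕ) := {y | (∀ n, y n = 1 ∨ y n = 2) ∧
  (∃ j, j % 2 = 0 ∧ ∀ t < n, k (j + t) = y t) ∧ ∃ j, j % 2 = 1 ∧ ∀ t < n, k (j + t) = y t}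

lemma Bn_closed (k : ℕ → ℕ) (n : ℕ) : IsClosed (Bn k n) := by
  have : Bn k n = Om ∩ {y | (∃ j, j % 2 = 0 ∧ ∀ t < n, k (j + t) = y t) ∧
      ∃ j, j % 2 = 1 ∧ ∀ t < n, k (j + t) = y t} := by
    ext y; simp [Bn, Om]
  rw [this]
  refine Om_compact.isClosed.inter (closed_of_prefix n _ ?_)
  rintro x y h ⟨⟨j, j1, j2⟩, ⟨i, i1, i2⟩⟩
  exact ⟨⟨j, j1, fun t ht => by rw [j2 t ht, h t ht]⟩, ⟨i, i1, fun t ht => by rw [i2 t ht, h t ht]⟩⟩

lemma Bo_eq (k : ℕ → ℕ) : Bo k = ⋂ n, Bn k n := by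
  ext y
  simp only [Bo, Bn, SubP, mem_setOf_eq, mem_iInter]
  constructor
  · rintro ⟨h1, h2, h3⟩ n
    exact ⟨h1, by simpa using h2 n, by simpa using h3 n⟩
  · intro h
    exact ⟨(h 0).1, fun n => by simpa using (h n).2.1, fun n => by simpa using (h n).2.2⟩

lemma Bo_closed (k : ℕ → ℕ) : IsClosed (Bo k) := by
  rw [Bo_eq]; exact isClosed_iInter (Bn_closed k)

lemma Bo_sub_Om (k : ℕ → ℕ) : Bo k ⊆ Om := fun _ h => h.1

lemma Bo_nonempty {k s : ℕ → ℕ} (K : Kol k s) (h : ∀ N, ¬ Det k N) : (Bo k).Nonempty := by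
  rw [Bo_eq]
  apply IsCompact.nonempty_iInter_of_sequence_nonempty_isCompact_isClosed
  · rintro n y ⟨h1, ⟨j, j1, j2⟩, ⟨i, i1, i2⟩⟩
    exact ⟨h1, ⟨j, j1, fun t ht => j2 t (by omega)⟩, ⟨i, i1, fun t ht => i2 t (by omega)⟩⟩
  · intro n
    have := h n
    unfold Det Eqv at this
    push Not at this
    obtain ⟨i, i', h1, h2⟩ := this
    rcases Nat.mod_two_eq_zero_or_one i with hp | hp
    · exact ⟨fun t => k (i + t), fun t => K.mem _, ⟨i, hp, fun t _ => rfl⟩,
        ⟨i', by omega, fun t ht => (h1 t ht).symm⟩⟩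
    · exact ⟨fun t => k (i + t), fun t => K.mem _, ⟨i', by omega, fun t ht => (h1 t ht).symm⟩,
        ⟨i, hp, fun t _ => rfl⟩⟩
  · exact Om_compact.of_isClosed_subset (Bn_closed k 0) (fun y h => h.1)
  · exact Bn_closed k

/-- the closed invariant sets -/
def Inv (k : ℕ → ℕ) : Set (Set (ℕ → ℕ)) :=
  {M | M.Nonempty ∧ IsClosed M ∧ M ⊆ Bo k ∧ ∀ y ∈ M, Tm y ∈ M}

lemma exists_minimal {k s : ℕ → ℕ} (K : Kol k s) (h : ∀ N, ¬ Det k N) :
    ∃ M, Minimal (· ∈ Inv k) M := by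
  apply zorn_superset
  intro C hC hchain
  rcases C.eq_empty_or_nonempty with h0 | h0
  · refine ⟨Bo k, ⟨Bo_nonempty K h, Bo_closed k, le_rfl, fun y hy => Bo_shift hy⟩, ?_⟩
    rw [h0]; simp
  · refine ⟨⋂₀ C, ⟨?_, ?_, ?_, ?_⟩, fun M hM => sInter_subset_of_mem hM⟩
    · haveI : Nonempty C := h0.to_subtype
      apply IsCompact.nonempty_sInter_of_directed_nonempty_isCompact_isClosed
      · intro a ha b hb
        rcases hchain.total ha hb with h | h
        · exact ⟨a, ha, le_rfl, h⟩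
        · exact ⟨b, hb, h, le_rfl⟩
      · exact fun U hU => (hC hU).1
      · exact fun U hU => Om_compact.of_isClosed_subset (hC hU).2.1
          ((hC hU).2.2.1.trans (Bo_sub_Om k))
      · exact fun U hU => (hC hU).2.1
    · exact isClosed_sInter (fun U hU => (hC hU).2.1)
    · obtain ⟨M, hM⟩ := h0
      exact (sInter_subset_of_mem hM).trans (hC hM).2.2.1
    · intro y hy
      rw [mem_sInter] at hy ⊢
      exact fun M hM => (hC hM).2.2.2 y (hy M hM)

section
variable {k : ℕ → ℕ} {M : Set (ℕ → ℕ)} (hM : Minimal (· ∈ Inv k) M)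
include hM

lemma min_iter (j : ℕ) : ∀ y ∈ M, Tm^[j] y ∈ M := by
  induction j with
  | zero => intro y hy; exact hy
  | succ j ih => intro y hy; rw [Function.iterate_succ_apply]; exact ih _ (hM.1.2.2.2 y hy)

/-- all words of `M` have the same factors -/
lemma min_lang {x y : ℕ → ℕ} (hx : x ∈ M) (hy : y ∈ M) (n : ℕ) :
    ∃ i, ∀ t < n, y (i + t) = x t := by
  by_contra hc
  push Not at hc
  let N : Set (ℕ → ℕ) := {z | z ∈ M ∧ ∀ i, ∃ t < n, z (i + t) ≠ x t}
  have hN : N ∈ Inv k := by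
    refine ⟨⟨y, hy, hc⟩, ?_, fun z hz => hM.1.2.2.1 hz.1, fun z hz => ⟨hM.1.2.2.2 z hz.1, ?_⟩⟩
    · have : N = M ∩ ⋂ i, {z : ℕ → ℕ | ∃ t < n, z (i + t) ≠ x t} := by
        ext z; simp [N]
      rw [this]
      refine hM.1.2.1.inter (isClosed_iInter (fun i => closed_of_prefix (i + n) _ ?_))
      rintro a b hab ⟨t, ht, ht'⟩
      exact ⟨t, ht, by rw [← hab (i + t) (by omega)]; exact ht'⟩
    · intro i
      obtain ⟨t, ht, ht'⟩ := hz.2 (i + 1)
      refine ⟨t, ht, ?_⟩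
      simp only [Tm]
      rw [show i + t + 1 = i + 1 + t by ring]
      exact ht'
  have h1 := hM.2 hN (fun z hz => hz.1)
  obtain ⟨t, ht, ht'⟩ := (h1 hx).2 0
  simp at ht'

lemma min_ur {y : ℕ → ℕ} (hy : y ∈ M) : UR y := by
  intro n
  by_contra hc
  push Not at hc
  have hcl : ∀ R, IsClosed {z : ℕ → ℕ | z ∈ M ∧ ∀ i ≤ R, ∃ t < n, z (i + t) ≠ y t} := by
    intro R
    have : {z : ℕ → ℕ | z ∈ M ∧ ∀ i ≤ R, ∃ t < n, z (i + t) ≠ y t} =
        M ∩ {z | ∀ i ≤ R, ∃ t < n, z (i + t) ≠ y t} := by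
      ext z; simp
    rw [this]
    refine hM.1.2.1.inter (closed_of_prefix (R + n) _ ?_)
    intro a b hab ha i hi
    obtain ⟨t, ht, ht'⟩ := ha i hi
    exact ⟨t, ht, by rw [← hab (i + t) (by omega)]; exact ht'⟩
  have hne : (⋂ R, {z : ℕ → ℕ | z ∈ M ∧ ∀ i ≤ R, ∃ t < n, z (i + t) ≠ y t}).Nonempty := by
    apply IsCompact.nonempty_iInter_of_sequence_nonempty_isCompact_isClosed
    · intro R z hz
      exact ⟨hz.1, fun i hi => hz.2 i (by omega)⟩
    · intro R
      obtain ⟨j, hj⟩ := hc R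
      refine ⟨Tm^[j] y, min_iter hM j y hy, fun i hi => ?_⟩
      obtain ⟨t, ht, ht'⟩ := hj (j + i) (by omega) (by omega)
      refine ⟨t, ht, ?_⟩
      rw [Tm_iter, ← add_assoc]
      exact ht'
    · exact Om_compact.of_isClosed_subset (hcl 0)
        (fun z hz => Bo_sub_Om k (hM.1.2.2.1 hz.1))
    · exact hcl
  obtain ⟨z, hz⟩ := hne
  rw [mem_iInter] at hz
  obtain ⟨i, hi⟩ := min_lang hM hy (hz 0).1 n
  obtain ⟨t, ht, ht'⟩ := (hz i).2 i le_rfl
  exact ht' (hi t ht)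

/-- the words with a left special prefix -/
def Ln (M : Set (ℕ → ℕ)) (n : ℕ) : Set (ℕ → ℕ) :=
  {y | y ∈ M ∧ ∃ x1 ∈ M, ∃ x2 ∈ M, x1 0 ≠ x2 0 ∧ (∀ t < n, x1 (1 + t) = y t) ∧
    ∀ t < n, x2 (1 + t) = y t}

lemma min_ls {s : ℕ → ℕ} (K : Kol k s) : ∃ y ∈ M, LSp y := by
  have hcl : ∀ n, IsClosed (Ln M n) := by
    intro n
    have : Ln M n = M ∩ {y | ∃ x1 ∈ M, ∃ x2 ∈ M, x1 0 ≠ x2 0 ∧ (∀ t < n, x1 (1 + t) = y t) ∧
        ∀ t < n, x2 (1 + t) = y t} := by
      ext z; simp [Ln]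
    rw [this]
    refine hM.1.2.1.inter (closed_of_prefix n _ ?_)
    rintro a b hab ⟨x1, h1, x2, h2, h3, h4, h5⟩
    exact ⟨x1, h1, x2, h2, h3, fun t ht => by rw [h4 t ht, hab t ht],
      fun t ht => by rw [h5 t ht, hab t ht]⟩
  by_cases hall : ∀ n, (Ln M n).Nonempty
  · have hne : (⋂ n, Ln M n).Nonempty := by
      apply IsCompact.nonempty_iInter_of_sequence_nonempty_isCompact_isClosed
      · rintro n z ⟨hz, x1, h1, x2, h2, h3, h4, h5⟩
        exact ⟨hz, x1, h1, x2, h2, h3, fun t ht => h4 t (by omega), fun t ht => h5 t (by omega)⟩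
      · exact hall
      · exact Om_compact.of_isClosed_subset (hcl 0)
          (fun z hz => Bo_sub_Om k (hM.1.2.2.1 hz.1))
      · exact hcl
    obtain ⟨y, hy⟩ := hne
    rw [mem_iInter] at hy
    refine ⟨y, (hy 0).1, fun n => ?_⟩
    obtain ⟨_, x1, h1, x2, h2, h3, h4, h5⟩ := hy n
    obtain ⟨i, hi⟩ := min_lang hM h1 (hy 0).1 (n + 1)
    obtain ⟨j, hj⟩ := min_lang hM h2 (hy 0).1 (n + 1)
    refine ⟨i, j, ?_, fun t ht => ?_, fun t ht => ?_⟩
    · have e1 := hi 0 (by omega)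
      have e2 := hj 0 (by omega)
      rw [add_zero] at e1 e2
      rw [e1, e2]; exact h3
    · have := hi (1 + t) (by omega)
      rw [← add_assoc] at this
      rw [this, h4 t ht]
    · have := hj (1 + t) (by omega)
      rw [← add_assoc] at this
      rw [this, h5 t ht]
  · exfalso
    push Not at hall
    obtain ⟨n, hn⟩ := hall
    have hdet : ∀ x1 ∈ M, ∀ x2 ∈ M, (∀ t < n, x1 (1 + t) = x2 (1 + t)) → x1 0 = x2 0 := by
      intro x1 h1 x2 h2 h3
      by_contra hc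
      have : Tm x1 ∈ Ln M n := by
        refine ⟨hM.1.2.2.2 x1 h1, x1, h1, x2, h2, hc, fun t ht => ?_, fun t ht => ?_⟩
        · simp only [Tm]; rw [add_comm]
        · rw [← h3 t ht]; simp only [Tm]; rw [add_comm]
      rw [hn] at this
      exact this
    obtain ⟨y, hy⟩ := hM.1.1
    have hu := min_ur hM hy
    obtain ⟨R, hR⟩ := hu n
    obtain ⟨m, m1, _, m3⟩ := hR 1
    have hper : ∀ t, y (t + m) = y t := by
      intro t
      obtain ⟨R', hR'⟩ := hu (m + n)
      obtain ⟨q, q1, _, q3⟩ := hR' (t + 1)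
      have key : ∀ i ≤ q, ∀ u, q - i ≤ u → u < q + n → y (u + m) = y u := by
        intro i
        induction i with
        | zero =>
          intro _ u h1 h2
          have e1 := q3 (u - q) (by omega)
          have e2 := q3 (u - q + m) (by omega)
          have e3 := m3 (u - q) (by omega)
          rw [show q + (u - q) = u by omega] at e1
          rw [show q + (u - q + m) = u + m by omega, add_comm (u - q) m, e3] at e2
          rw [e1, e2]
        | succ i ih =>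
          intro hi u h1 h2
          by_cases hc : q - i ≤ u
          · exact ih (by omega) u hc h2
          · have := hdet _ (min_iter hM (u + m) y hy) _ (min_iter hM u y hy) (fun t ht => by
              rw [Tm_iter, Tm_iter]
              have := ih (by omega) (u + (1 + t)) (by omega) (by omega)
              rw [show u + m + (1 + t) = u + (1 + t) + m by ring]
              exact this)
            simpa [Tm_iter] using this
      exact key q le_rfl t (by omega) (by omega)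
    obtain ⟨N, hN⟩ := K.aperiodic m m1
    obtain ⟨j, _, hj⟩ := (hM.1.2.2.1 hy).2.1 (N + m)
    obtain ⟨t, ht, ht'⟩ := hN j
    apply ht'
    have e1 := hj (t + m) (by omega)
    have e2 := hj t (by omega)
    rw [← add_assoc] at e1
    rw [e1, e2, hper t]

end

/-- the word needed for the lower bound -/
theorem exists_both {k s : ℕ → ℕ} (K : Kol k s) (h : ∀ N, ¬ Det k N) :
    ∃ y, RM k y ∧ SubP k y 0 ∧ SubP k y 1 := by
  obtain ⟨M, hM⟩ := exists_minimal K h
  obtain ⟨y, hy, hls⟩ := min_ls hM K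
  have hB := hM.1.2.2.1 hy
  exact ⟨y, ⟨hB.1, hB.2.1.sub, min_ur hM hy, hls⟩, hB.2.1, hB.2.2⟩

end Pool.Agent.KolW
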