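import Pool.Agent.Kol.Defs
import Pool.Agent.Kol.Det

/-!
# If the parity is determined by windows then the word is morphic
-/

namespace Pool.Agent.KolW

open Classical in
/-- the morphism -/
noncomputable def sg (k s : ℕ → ℕ) (N : ℕ) (w : Fin N → Bool) : List (Fin N → Bool) :=
  if h : ∃ p, fw k N p = w then
    (List.range (k h.choose)).map (fun t => fw k N (s h.choose + t)) else [w]

lemma sg_fw {k s : ℕ → ℕ} (K : Kol k s) {N : ℕ} (hN : 9 ≤ N) (hD : Det k N) (p : ℕ) :
    sg k s N (fw k N p) = (List.range (k p)).map (fun t => fw k N (s p + t)) := by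
  have h : ∃ q, fw k N q = fw k N p := ⟨p, rfl⟩
  unfold sg
  rw [dif_pos h]
  have he : Eqv k N h.choose p := (fw_eq_iff K _ _ _).1 h.choose_spec
  have hk : k h.choose = k p := by simpa using he 0 (by omega)
  have hs := K.step hN hD he
  rw [hk] at hs ⊢
  refine List.map_congr_left (fun t ht => ?_)
  exact (fw_eq_iff K N _ _).2 (hs t (List.mem_range.1 ht))

theorem morphic {k s : ℕ → ℕ} (K : Kol k s) {N : ℕ} (hN : 9 ≤ N) (hD : Det k N) :
    Morphic k := by
  refine ⟨Fin N → Bool, inferInstance, sg k s N, fun w => if w ⟨0, by omega⟩ then 2 else 1,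
    fw k N, ?_, ?_, ?_, ?_⟩
  · intro w
    by_cases h : ∃ p, fw k N p = w
    · obtain ⟨p, rfl⟩ := h
      rw [sg_fw K hN hD]
      have := K.one_le p
      intro hc
      have := congrArg List.length hc
      simp at this
      omega
    · unfold sg; rw [dif_neg h]; simp
  · rw [sg_fw K hN hD]
    simp [K.k0]
  · intro n
    refine ⟨s n, ?_⟩
    induction n with
    | zero => simp [K.s0]
    | succ n ih =>
      rw [List.range_succ, List.map_append, List.flatMap_append, ih, K.succ, List.range_add,
        List.map_append]
      congr 1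
      simp only [List.map_cons, List.map_nil, List.flatMap_cons, List.flatMap_nil,
        List.append_nil, List.map_map]
      rw [sg_fw K hN hD]
      rfl
  · intro n
    simp only [fw, add_zero, decide_eq_true_eq]
    rcases K.mem n with a | a <;> rw [a] <;> simp

end Pool.Agent.KolW
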