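import Pool.Agent.Kol.Defs
import Pool.Agent.Kol.Free

/-!
# In the free case every smooth word occurs
-/

namespace Pool.Agent.KolW

lemma rle_cons_ne_nil (a : ℕ) (w : List ℕ) : rle (a :: w) ≠ [] := by
  induction w generalizing a with
  | nil => simp [rle]
  | cons b w ih =>
    simp only [rle]
    split
    · cases h : rle (b :: w) with
      | nil => exact absurd h (ih b)
      | cons r v => simp [incr]
    · simp

lemma rle_pos (w : List ℕ) : ∀ r ∈ rle w, 1 ≤ r := by
  induction w with
  | nil => simp [rle]
  | cons a w ih =>
    cases w with
    | nil => simp [rle]
    | cons b w =>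
      simp only [rle]
      split
      · cases h : rle (b :: w) with
        | nil => simp [incr]
        | cons r v =>
          rw [h] at ih
          intro x hx
          simp only [incr, List.mem_cons] at hx
          rcases hx with rfl | hx
          · omega
          · exact ih x (by simp [hx])
      · intro x hx
        simp only [List.mem_cons] at hx
        rcases hx with rfl | hx
        · exact le_rfl
        · exact ih x hx

lemma rle_sum (w : List ℕ) : (rle w).sum = w.length := by
  induction w with
  | nil => simp [rle]
  | cons a w ih =>
    cases w with
    | nil => simp [rle]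
    | cons b w =>
      simp only [rle]
      split
      · cases h : rle (b :: w) with
        | nil => exact absurd h (rle_cons_ne_nil b w)
        | cons r v =>
          rw [h] at ih
          simp only [incr, List.sum_cons, List.length_cons] at ih ⊢
          omega
      · simp only [List.sum_cons, ih, List.length_cons]; omega

lemma length_le_sum (v : List ℕ) (h : ∀ r ∈ v, 1 ≤ r) : v.length ≤ v.sum := by
  induction v with
  | nil => simp
  | cons a v ih =>
    have h1 := h a (by simp)
    have h2 := ih (fun r hr => h r (by simp [hr]))
    simp only [List.length_cons, List.sum_cons]; omega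

lemma integ_rle (w : List ℕ) : ∀ (a e : ℕ), (∀ x ∈ a :: w, x = 1 ∨ x = 2) → c e = a →
    integ e (rle (a :: w)) = a :: w := by
  induction w with
  | nil => intro a e _ he; simp [rle, integ, he]
  | cons b w ih =>
    intro a e hm he
    have hm' : ∀ x ∈ b :: w, x = 1 ∨ x = 2 := fun x hx => hm x (by simp at hx ⊢; tauto)
    simp only [rle]
    split
    · rename_i hab
      have h1 := ih b e hm' (by rw [he, hab])
      cases h : rle (b :: w) with
      | nil => exact absurd h (rle_cons_ne_nil b w)
      | cons r v =>
        rw [h] at h1
        simp only [incr, integ, List.replicate_succ, List.cons_append] at h1 ⊢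
        rw [h1, he]
    · rename_i hab
      have hb : c (e + 1) = b := by
        rw [c_succ, he]
        have h1 := hm a (by simp)
        have h2 := hm b (by simp)
        omega
      have h1 := ih b (e + 1) hm' hb
      simp only [integ, List.replicate_one, List.singleton_append, h1, he]

/-- the shape of the derivative -/
lemma dropOne_spec (v : List ℕ) : v = dropOne v ∨ v = 1 :: dropOne v := by
  cases v with
  | nil => left; rfl
  | cons a v =>
    simp only [dropOne]
    split
    · right; rename_i h; rw [h]
    · left; rfl

lemma der_spec (w : List ℕ) : ∃ x y : List ℕ, (x = [] ∨ x = [1]) ∧ (y = [] ∨ y = [1]) ∧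
    rle w = x ++ der w ++ y := by
  obtain ⟨x, hx, h1⟩ : ∃ x : List ℕ, (x = [] ∨ x = [1]) ∧ rle w = x ++ dropOne (rle w) := by
    rcases dropOne_spec (rle w) with h | h
    · exact ⟨[], Or.inl rfl, by simpa using h⟩
    · exact ⟨[1], Or.inr rfl, by simpa using h⟩
  obtain ⟨y, hy, h2⟩ : ∃ y : List ℕ, (y = [] ∨ y = [1]) ∧
      dropOne (rle w) = der w ++ y := by
    rcases dropOne_spec (dropOne (rle w)).reverse with h | h
    · refine ⟨[], Or.inl rfl, ?_⟩
      have := congrArg List.reverse h
      rw [List.reverse_reverse] at this
      simpa [der] using this
    · refine ⟨[1], Or.inr rfl, ?_⟩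
      have := congrArg List.reverse h
      rw [List.reverse_reverse, List.reverse_cons] at this
      simpa [der] using this
  refine ⟨x, y, hx, hy, ?_⟩
  rw [List.append_assoc, ← h2]
  exact h1

lemma der_length_lt {w : List ℕ} (hw : w ≠ []) : (der w).length < w.length := by
  obtain ⟨a, w', rfl⟩ : ∃ a w', w = a :: w' := List.exists_cons_of_ne_nil hw
  have h1 := rle_sum (a :: w')
  have h2 := rle_pos (a :: w')
  have h3 := rle_cons_ne_nil a w'
  obtain ⟨r, v, hr⟩ : ∃ r v, rle (a :: w') = r :: v := List.exists_cons_of_ne_nil h3
  have h5 : (der (a :: w')).length ≤ (dropOne (r :: v)).length := by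
    unfold der
    rw [hr, List.length_reverse]
    have : ∀ u : List ℕ, (dropOne u).length ≤ u.length := by
      intro u
      cases u with
      | nil => simp [dropOne]
      | cons b u => simp only [dropOne]; split <;> simp
    exact (this _).trans (by rw [List.length_reverse])
  have h6 : v.length ≤ v.sum := length_le_sum v (fun x hx => h2 x (by rw [hr]; simp [hx]))
  rw [hr, List.sum_cons] at h1
  have h7 := h2 r (by rw [hr]; simp)
  by_cases h8 : r = 1
  · have : (dropOne (r :: v)).length = v.length := by simp [dropOne, h8]
    omega
  · have : (dropOne (r :: v)).length = v.length + 1 := by simp [dropOne, h8]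
    omega

lemma Cinf.der {w : List ℕ} (h : Cinf w) : Cinf (der w) := fun n => h (n + 1)

/-- in the free case every smooth word occurs -/
theorem cinf_occurs {k s : ℕ → ℕ} (K : Kol k s) (hF : Free k) :
    ∀ n (w : List ℕ), w.length = n → Cinf w → ∃ i, win k i w.length = w := by
  intro n
  induction n using Nat.strong_induction_on with
  | _ n ih =>
    intro w hn hw
    cases w with
    | nil => exact ⟨0, rfl⟩
    | cons a w =>
      have hl := der_length_lt (w := a :: w) (by simp)
      obtain ⟨i0, hi0⟩ := ih _ (by omega) (der (a :: w)) rfl hw.der
      obtain ⟨x, y, hx, hy, hr⟩ := der_spec (a :: w)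
      set v := der (a :: w) with hv
      -- the first letter
      obtain ⟨e, he⟩ : ∃ e, c e = a := by
        rcases hw 0 a (by simp) with h | h
        · exact ⟨1, by rw [h]; rfl⟩
        · exact ⟨0, by rw [h]; rfl⟩
      have h1 := integ_rle w a e (hw 0) he
      rw [hr, integ_append, integ_append] at h1
      obtain ⟨i, hi1, hi2, hi3⟩ := hF.exists_ge v.length i0 (e + x.length) 1
      have hvi : v = win k i v.length := by
        rw [← hi0]
        rw [win_length]
        exact ((win_eq_iff k i i0 v.length).2 hi3).symm
      have hmid : integ (e + x.length) v = win k (s i) (s (i + v.length) - s i) := by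
        conv_lhs => rw [hvi]
        exact K.integ_win' i v.length (by omega)
      have hmon := K.strictMono.monotone (show i ≤ i + v.length by omega)
      have hyy : integ (e + (x ++ v).length) y = win k (s (i + v.length)) y.length := by
        rcases hy with rfl | rfl
        · simp [integ, win]
        · simp only [integ, List.replicate_one, List.append_nil, List.length_cons,
            List.length_nil, win, List.length_append, zero_add]
          rw [K.k_s]
          congr 1
          exact c_eq (by omega)
      have hsi : 1 ≤ s i := by have := K.succ_le_s hi1; omega
      have hxx : integ e x = win k (s i - x.length) x.length := by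
        rcases hx with rfl | rfl
        · simp [integ, win]
        · simp only [integ, List.replicate_one, List.append_nil, List.length_cons,
            List.length_nil, win, zero_add]
          simp only [List.length_cons, List.length_nil, zero_add] at hi2
          obtain ⟨r, rfl⟩ : ∃ r, i = r + 1 := ⟨i - 1, by omega⟩
          have := K.run r (s (r + 1) - 1) (by have := K.s_lt r; omega)
            (by have := K.s_lt r; omega)
          rw [this]
          congr 1
          exact c_eq (by omega)
      have hxl : x.length ≤ 1 := by rcases hx with rfl | rfl <;> simp
      refine ⟨s i - x.length, ?_⟩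
      have hlen : (a :: w).length = x.length + (s (i + v.length) - s i) + y.length := by
        rw [← h1, hxx, hmid, hyy]
        simp only [List.length_append, win_length]
      rw [hlen, win_add, win_add, show s i - x.length + x.length = s i by omega,
        show s i - x.length + (x.length + (s (i + v.length) - s i)) = s (i + v.length) by omega,
        ← hxx, ← hmid, ← hyy]
      exact h1

end Pool.Agent.KolW
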