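import Pool.Agent.Kol.Det

/-!
# The parity is determined by windows: at most about `n log n` factors
-/

namespace Pool.Agent.KolW

namespace Kol

variable {k s : ℕ → ℕ} (K : Kol k s)
include K

/-- exponential growth of two consecutive blocks -/
lemma pair_pow (m i : ℕ) : s^[4 * m] i + 2 ^ m ≤ s^[4 * m] (i + 2) := by
  induction m generalizing i with
  | zero => simp
  | succ m ih =>
    have h1 : s^[4 * (m + 1)] i = s^[4 * m] (s^[4] i) := by
      rw [show 4 * (m + 1) = 4 * m + 4 by ring, Function.iterate_add_apply]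
    have h2 : s^[4 * (m + 1)] (i + 2) = s^[4 * m] (s^[4] (i + 2)) := by
      rw [show 4 * (m + 1) = 4 * m + 4 by ring, Function.iterate_add_apply]
    rw [h1, h2]
    have h3 := K.growth 4 i
    have h4 := ih (s^[4] i)
    have h5 := ih (s^[4] i + 2)
    have h6 := (K.iter_strictMono (4 * m)).monotone (show s^[4] i + 2 + 2 ≤ s^[4] (i + 2) by omega)
    rw [pow_succ]
    omega

lemma pair_clog (n i : ℕ) : n ≤ s^[4 * Nat.clog 2 n] (i + 2) - s^[4 * Nat.clog 2 n] i := by
  have h1 := K.pair_pow (Nat.clog 2 n) i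
  have h2 := Nat.le_pow_clog (b := 2) (by norm_num) n
  omega

end Kol

/-- the parity is determined by windows: `O(n log n)` factors -/
theorem det_log {k s : ℕ → ℕ} (K : Kol k s) {N : ℕ} (hN : 9 ≤ N) (hD : Det k N) (n : ℕ)
    (hn : 1 ≤ n) :
    (Fs k n).card ≤ (Fs k (N + 2)).card * ((4 * Nat.clog 2 n + 1) * (n + 1)) := by
  classical
  set J := 4 * Nat.clog 2 n with hJ
  -- three consecutive blocks
  have three : ∀ j, ∀ i i', Eqv k (N + 2) i i' →
      s^[j] (i + 1) - s^[j] i = s^[j] (i' + 1) - s^[j] i' ∧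
      ∀ x < s^[j] (i + 3) - s^[j] i, k (s^[j] i + x) = k (s^[j] i' + x) := by
    intro j i i' h
    have e0 : Eqv k N i i' := fun t ht => h t (by omega)
    have e1 : Eqv k N (i + 1) (i' + 1) := fun t ht => by
      have := h (1 + t) (by omega)
      rw [← add_assoc, ← add_assoc] at this; exact this
    have e2 : Eqv k N (i + 1 + 1) (i' + 1 + 1) := fun t ht => by
      have := h (1 + 1 + t) (by omega)
      rw [show i + (1 + 1 + t) = i + 1 + 1 + t by ring,
        show i' + (1 + 1 + t) = i' + 1 + 1 + t by ring] at this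
      exact this
    have b0 := K.block_eq hN hD j _ _ e0
    have b1 := K.block_eq hN hD j _ _ e1
    have b2 := K.block_eq hN hD j _ _ e2
    refine ⟨b0.1, fun x hx => ?_⟩
    have m0 := K.iter_strictMono j (show i < i + 1 by omega)
    have m1 := K.iter_strictMono j (show i + 1 < i + 1 + 1 by omega)
    have m2 := K.iter_strictMono j (show i + 1 + 1 < i + 1 + 1 + 1 by omega)
    have m0' := K.iter_strictMono j (show i' < i' + 1 by omega)
    have m1' := K.iter_strictMono j (show i' + 1 < i' + 1 + 1 by omega)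
    have m2' := K.iter_strictMono j (show i' + 1 + 1 < i' + 1 + 1 + 1 by omega)
    rw [show i + 3 = i + 1 + 1 + 1 by ring] at hx
    by_cases c0 : x < s^[j] (i + 1) - s^[j] i
    · have := b0.2 x c0 0 (by omega)
      simpa using this
    · by_cases c1 : x < s^[j] (i + 1 + 1) - s^[j] i
      · have := b1.2 (x - (s^[j] (i + 1) - s^[j] i)) (by omega) 0 (by omega)
        simp only [add_zero] at this
        rw [show s^[j] i + x = s^[j] (i + 1) + (x - (s^[j] (i + 1) - s^[j] i)) by omega,
          show s^[j] i' + x = s^[j] (i' + 1) + (x - (s^[j] (i + 1) - s^[j] i)) by omega]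
        exact this
      · have := b2.2 (x - (s^[j] (i + 1 + 1) - s^[j] i)) (by omega) 0 (by omega)
        simp only [add_zero] at this
        rw [show s^[j] i + x = s^[j] (i + 1 + 1) + (x - (s^[j] (i + 1 + 1) - s^[j] i)) by omega,
          show s^[j] i' + x = s^[j] (i' + 1 + 1) + (x - (s^[j] (i + 1 + 1) - s^[j] i)) by omega]
        exact this
  -- the choice of the level
  have lev : ∀ p J', (∃ j < J', ∃ i, s^[j] i ≤ p ∧ p < s^[j] (i + 1) ∧ s^[j] (i + 1) ≤ p + n ∧
      p + n ≤ s^[j] (i + 3)) ∨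
      (∃ i, s^[J'] i ≤ p ∧ p < s^[J'] (i + 1) ∧ s^[J'] (i + 1) ≤ p + n) := by
    intro p J'
    induction J' with
    | zero => right; exact ⟨p, by simp, by simp, by simp; omega⟩
    | succ J' ih =>
      rcases ih with ⟨j, hj, h⟩ | ⟨i, h1, h2, h3⟩
      · left; exact ⟨j, by omega, h⟩
      · by_cases hc : p + n ≤ s^[J'] (i + 3)
        · left; exact ⟨J', by omega, i, h1, h2, h3, hc⟩
        · right
          obtain ⟨r, t, ht, hr⟩ := K.exists_run i
          have a1 := K.succ r
          have a2 := K.le_two r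
          refine ⟨r, ?_, ?_, ?_⟩
          · rw [Function.iterate_succ_apply]
            have := (K.iter_strictMono J').monotone (show s r ≤ i by omega)
            omega
          · rw [Function.iterate_succ_apply]
            have := (K.iter_strictMono J').monotone (show i + 1 ≤ s (r + 1) by omega)
            omega
          · rw [Function.iterate_succ_apply]
            have := (K.iter_strictMono J').monotone (show s (r + 1) ≤ i + 3 by omega)
            omega
  have lev' : ∀ p, ∃ j ≤ J, ∃ i, s^[j] i ≤ p ∧ p < s^[j] (i + 1) ∧ s^[j] (i + 1) ≤ p + n ∧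
      p + n ≤ s^[j] (i + 3) := by
    intro p
    rcases lev p J with ⟨j, hj, h⟩ | ⟨i, h1, h2, h3⟩
    · exact ⟨j, by omega, h⟩
    · refine ⟨J, le_rfl, i, h1, h2, h3, ?_⟩
      have := K.pair_clog n (i + 1)
      rw [← hJ, show i + 1 + 2 = i + 3 by ring] at this
      omega
  have ch : ∀ w : {w // w ∈ Fs k n}, ∃ p j i, j ≤ J ∧ s^[j] i ≤ p ∧ p < s^[j] (i + 1) ∧
      s^[j] (i + 1) ≤ p + n ∧ p + n ≤ s^[j] (i + 3) ∧ fw k n p = w.1 := by
    rintro ⟨w, hw⟩
    obtain ⟨p, rfl⟩ := mem_Fs.1 hw
    obtain ⟨j, hj, i, h1, h2, h3, h4⟩ := lev' p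
    exact ⟨p, j, i, hj, h1, h2, h3, h4, rfl⟩
  choose fp fj fi hj h1 h2 h3 h4 h5 using ch
  let f : {w // w ∈ Fs k n} → (Fin (N + 2) → Bool) × (ℕ × ℕ) :=
    fun w => (fw k (N + 2) (fi w), (fj w, s^[fj w] (fi w + 1) - fp w))
  have inj : Function.Injective f := by
    intro w w' h
    simp only [f, Prod.mk.injEq] at h
    obtain ⟨ha, hb, hc⟩ := h
    have he := (fw_eq_iff K _ _ _).1 ha
    have g1 := h1 w
    have g2 := h2 w
    have g3 := h4 w
    have g1' := h1 w'
    have g2' := h2 w'
    have g3' := h4 w'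
    rw [← hb] at hc g1' g2' g3'
    obtain ⟨q1, q2⟩ := three (fj w) _ _ he
    apply Subtype.ext
    rw [← h5 w, ← h5 w']
    refine (fw_eq_iff K _ _ _).2 (fun t ht => ?_)
    have := q2 (fp w - s^[fj w] (fi w) + t) (by omega)
    rw [show s^[fj w] (fi w) + (fp w - s^[fj w] (fi w) + t) = fp w + t by omega,
      show s^[fj w] (fi w') + (fp w - s^[fj w] (fi w) + t) = fp w' + t by omega] at this
    exact this
  have hsub : Finset.univ.image f ⊆
      Fs k (N + 2) ×ˢ (Finset.range (J + 1) ×ˢ Finset.range (n + 1)) := by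
    intro x hx
    obtain ⟨w, _, rfl⟩ := Finset.mem_image.1 hx
    refine Finset.mem_product.2 ⟨fw_mem _ _ _, Finset.mem_product.2
      ⟨Finset.mem_range.2 ?_, Finset.mem_range.2 ?_⟩⟩
    · have := hj w
      simp only [f]; omega
    · have g2 := h3 w
      simp only [f]; omega
  have hc := Finset.card_le_card hsub
  rw [Finset.card_image_of_injective _ inj, Finset.card_univ, Fintype.card_coe,
    Finset.card_product, Finset.card_product, Finset.card_range, Finset.card_range] at hc
  exact hc

end Pool.Agent.KolW
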